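import Pool.Agent.H50.G.S.Y829.LS3
/-! Exponential moments of sifted sets. -/

set_option autoImplicit false

namespace Pool.Agent.Y829

open Finset

/-- lower bound for the product over primes -/
theorem mert : ∃ c : ℝ, 0 < c ∧ ∀ X : ℕ, 2 ≤ X → ∀ P : Finset ℕ, (∀ p ∈ P, p.Prime ∧ p ≤ X) →
    c / Real.log X ≤ V P := by
  obtain ⟨c, C, hc, _, h⟩ := Pool.Agent.Helper112.LP.mertens_prod
  have hl2 := Real.log_pos one_lt_two
  refine ⟨c * Real.log 2 / 2, by positivity, ?_⟩
  intro X hX P hP
  have hex : ∃ J : ℕ, X < 2 ^ 2 ^ J := ⟨X, lt_of_lt_of_le Nat.lt_two_pow_self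
    (Nat.pow_le_pow_right (by norm_num) Nat.lt_two_pow_self.le)⟩
  have hJ := Nat.find_spec hex
  have hmin := fun m => Nat.find_min hex (m := m)
  set J := Nat.find hex
  have hJ0 : J ≠ 0 := by
    intro h0
    rw [h0] at hJ
    norm_num at hJ
    omega
  obtain ⟨J', hJ'⟩ := Nat.exists_eq_succ_of_ne_zero hJ0
  have h1 := not_lt.1 (hmin J' (by omega))
  have hX1 : (1 : ℝ) < X := by exact_mod_cast (by omega : 1 < X)
  have hlog : 0 < Real.log X := Real.log_pos hX1
  have h2 : (2 : ℝ) ^ J' * Real.log 2 ≤ Real.log X := by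
    have h5 : Real.log ((2 : ℝ) ^ 2 ^ J') ≤ Real.log X :=
      Real.log_le_log (by positivity) (by exact_mod_cast h1)
    rw [Real.log_pow] at h5
    push_cast at h5
    exact h5
  have h3 := (h J).1
  have h4 : ∏ l ∈ (range (2 ^ 2 ^ J)).filter Nat.Prime, (1 - (1 : ℝ) / l) ≤ V P :=
    V_mono (Q := (range (2 ^ 2 ^ J)).filter Nat.Prime)
      (fun p hp => mem_filter.2 ⟨mem_range.2 ((hP p hp).2.trans_lt hJ), (hP p hp).1⟩)
      (fun p hp => (mem_filter.1 hp).2)
  refine le_trans ?_ (h3.trans h4)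
  rw [div_le_div_iff₀ hlog (by positivity), hJ', pow_succ]
  nlinarith

lemma sum_split (p L : ℕ) (G : ℕ → ℝ) :
    ∑ j ∈ range (p * L), G j = ∑ i ∈ range p, ∑ j ∈ range L, G (i + p * j) := by
  induction L with
  | zero => simp
  | succ L ih =>
    rw [Nat.mul_succ, sum_range_add, ih, ← sum_add_distrib]
    apply sum_congr rfl
    intro i _
    rw [sum_range_succ, add_comm (p * L) i]

lemma one_root {p A : ℕ} (hp : p.Prime) (hA : A.Coprime p) (x : ℕ) :
    ((range p).filter (fun i => p ∣ x + A * i)).card = 1 := by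
  have := Fact.mk hp
  have hA0 : (A : ZMod p) ≠ 0 := by
    intro h
    rw [ZMod.natCast_eq_zero_iff] at h
    exact ((Nat.Prime.coprime_iff_not_dvd hp).1 hA.symm) h
  rw [card_eq_one]
  refine ⟨(-(x : ZMod p) / (A : ZMod p)).val, ?_⟩
  ext i
  rw [mem_filter, mem_range, mem_singleton, ← ZMod.natCast_eq_zero_iff]
  push_cast
  constructor
  · rintro ⟨h1, h2⟩
    have h3 : (i : ZMod p) = -(x : ZMod p) / (A : ZMod p) := by
      rw [eq_div_iff hA0]
      linear_combination h2
    rw [← h3, ZMod.val_cast_of_lt h1]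
  · intro h
    refine ⟨by rw [h]; exact ZMod.val_lt _, ?_⟩
    rw [h, ZMod.natCast_zmod_val]
    field_simp
    ring

/-- the average over one prime -/
lemma avg1 {p A : ℕ} (hp : p.Prime) (hA : A.Coprime p) (x : ℕ) (H : Finset ℕ) (lam b K : ℝ) (hlam : 0 ≤ lam)
    (hb : lam * b ≤ 1) (hHb : ∀ r : ℕ, ((H.filter (fun h => p ∣ r + h)).card : ℝ) ≤ b) (hK0 : 0 ≤ K) (hK1 : K ≤ 1) :
    ∑ i ∈ range p, Real.exp (-(lam * ((H.filter (fun h => ¬ p ∣ x + A * i + h)).card : ℝ) * K)) ≤
      p * Real.exp (-(lam * (H.card : ℝ) * ((1 - (1 + lam * b) / p) * K))) := by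
  have hp0 : (0 : ℝ) < p := by exact_mod_cast hp.pos
  set a : ℕ → ℝ := fun i => ((H.filter (fun h => p ∣ x + A * i + h)).card : ℝ) with ha
  have ha0 : ∀ i, 0 ≤ a i := fun i => Nat.cast_nonneg _
  have hab : ∀ i, a i ≤ b := fun i => hHb (x + A * i)
  have hb0 : 0 ≤ b := (ha0 0).trans (hab 0)
  have h1 : ∀ i, ((H.filter (fun h => ¬ p ∣ x + A * i + h)).card : ℝ) = H.card - a i := by
    intro i
    have h2 := card_filter_add_card_filter_not (s := H) (fun h => p ∣ x + A * i + h)
    rw [eq_sub_iff_add_eq]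
    have h3 : ((H.filter (fun h => ¬ p ∣ x + A * i + h)).card : ℝ) + ((H.filter (fun h => p ∣ x + A * i + h)).card : ℝ) =
      (H.card : ℝ) := by
      rw [add_comm]
      exact_mod_cast h2
    exact h3
  have h2 : ∑ i ∈ range p, a i = H.card := by
    simp only [ha, card_filter]
    push_cast
    rw [sum_comm]
    have h3 : ∀ h ∈ H, ∑ i ∈ range p, (if p ∣ x + A * i + h then (1 : ℝ) else 0) = 1 := by
      intro h _
      have h4 := one_root hp hA (x + h)
      rw [card_filter] at h4
      have h5 : ∑ i ∈ range p, (if p ∣ x + h + A * i then (1 : ℝ) else 0) = 1 := by exact_mod_cast h4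
      refine (sum_congr rfl fun i _ => ?_).trans h5
      rw [add_right_comm]
    rw [sum_congr rfl h3]
    simp
  set X : ℝ := lam * (H.card : ℝ) * K with hX
  have h3 : ∀ i ∈ range p, Real.exp (-(lam * ((H.filter (fun h => ¬ p ∣ x + A * i + h)).card : ℝ) * K)) ≤
      Real.exp (-X) * (1 + lam * K * (1 + lam * b) * a i) := by
    intro i _
    rw [h1 i]
    have h4 : -(lam * ((H.card : ℝ) - a i) * K) = -X + lam * K * a i := by rw [hX]; ring
    rw [h4, Real.exp_add]
    apply mul_le_mul_of_nonneg_left _ (Real.exp_pos _).le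
    have h5 : 0 ≤ lam * K * a i := mul_nonneg (mul_nonneg hlam hK0) (ha0 i)
    have h6 : lam * K * a i ≤ lam * b := by
      calc lam * K * a i ≤ lam * 1 * b := by
            apply mul_le_mul (mul_le_mul_of_nonneg_left hK1 hlam) (hab i) (ha0 i) (by positivity)
        _ = _ := by ring
    have h7 := Real.abs_exp_sub_one_sub_id_le (x := lam * K * a i) (by rw [abs_of_nonneg h5]; linarith)
    have h8 := (abs_le.1 h7).2
    have h9 : (lam * K * a i) ^ 2 ≤ lam * K * a i * (lam * b) := by
      rw [sq]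
      exact mul_le_mul_of_nonneg_left h6 h5
    linarith
  refine (sum_le_sum h3).trans ?_
  rw [← mul_sum, sum_add_distrib, ← mul_sum, h2]
  simp only [sum_const, card_range, nsmul_eq_mul, mul_one]
  have h4 : (p : ℝ) + lam * K * (1 + lam * b) * H.card = p * (1 + X * (1 + lam * b) / p) := by
    rw [hX]; field_simp
  have h5 : 1 + X * (1 + lam * b) / p ≤ Real.exp (X * (1 + lam * b) / p) := by
    rw [add_comm]; exact Real.add_one_le_exp _
  rw [h4]
  calc Real.exp (-X) * (p * (1 + X * (1 + lam * b) / p)) ≤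
      Real.exp (-X) * (p * Real.exp (X * (1 + lam * b) / p)) := by
        apply mul_le_mul_of_nonneg_left _ (Real.exp_pos _).le
        exact mul_le_mul_of_nonneg_left h5 hp0.le
    _ = p * Real.exp (-X + X * (1 + lam * b) / p) := by rw [Real.exp_add]; ring
    _ = _ := by
      congr 2
      rw [hX]
      field_simp
      ring

open Classical in
/-- **exponential moments** -/
theorem expm (P : Finset ℕ) : ∀ (lam : ℝ) (b : ℕ → ℝ) (H : Finset ℕ) (x A : ℕ), (∀ p ∈ P, p.Prime) → 0 ≤ lam →
    (∀ p ∈ P, lam * b p ≤ 1) → (∀ p ∈ P, ∀ r : ℕ, ((H.filter (fun h => p ∣ r + h)).card : ℝ) ≤ b p) →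
    (∀ p ∈ P, A.Coprime p) →
    ∑ j ∈ range (∏ p ∈ P, p), Real.exp (-(lam * ((H.filter (fun h => ∀ p ∈ P, ¬ p ∣ x + A * j + h)).card : ℝ))) ≤
      (∏ p ∈ P, (p : ℝ)) * Real.exp (-(lam * (H.card : ℝ) * ∏ p ∈ P, (1 - (1 + lam * b p) / p))) := by
  induction P using Finset.induction_on with
  | empty =>
    intro lam b H x A _ _ _ _ _
    simp
  | insert p P hpP ih =>
    intro lam b H x A hP hlam hb hHb hA
    have hp : p.Prime := hP p (mem_insert_self _ _)
    have hp0 : (0 : ℝ) < p := by exact_mod_cast hp.pos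
    have hb0 : ∀ q ∈ insert p P, 0 ≤ b q := fun q hq => (Nat.cast_nonneg _).trans (hHb q hq 0)
    set K : ℝ := ∏ q ∈ P, (1 - (1 + lam * b q) / q) with hK
    have hfac : ∀ q ∈ P, 0 ≤ 1 - (1 + lam * b q) / (q : ℝ) ∧ 1 - (1 + lam * b q) / (q : ℝ) ≤ 1 := by
      intro q hq
      have hq' : q ∈ insert p P := mem_insert_of_mem hq
      have h2 : (2 : ℝ) ≤ q := by exact_mod_cast (hP q hq').two_le
      have h3 : (1 + lam * b q) / (q : ℝ) ≤ 1 := by
        rw [div_le_one (by linarith)]
        linarith [hb q hq']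
      have h4 : 0 ≤ (1 + lam * b q) / (q : ℝ) := by
        have := hb0 q hq'
        positivity
      exact ⟨by linarith, by linarith⟩
    have hK0 : 0 ≤ K := prod_nonneg fun q hq => (hfac q hq).1
    have hK1 : K ≤ 1 := prod_le_one (fun q hq => (hfac q hq).1) fun q hq => (hfac q hq).2
    rw [prod_insert hpP, prod_insert hpP, prod_insert hpP, sum_split]
    have h1 : ∀ i ∈ range p, ∑ j ∈ range (∏ q ∈ P, q),
        Real.exp (-(lam * ((H.filter (fun h => ∀ q ∈ insert p P, ¬ q ∣ x + A * (i + p * j) + h)).card : ℝ))) ≤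
        (∏ q ∈ P, (q : ℝ)) * Real.exp (-(lam * ((H.filter (fun h => ¬ p ∣ x + A * i + h)).card : ℝ) * K)) := by
      intro i _
      have h2 := ih lam b (H.filter (fun h => ¬ p ∣ x + A * i + h)) (x + A * i) (A * p)
        (fun q hq => hP q (mem_insert_of_mem hq)) hlam (fun q hq => hb q (mem_insert_of_mem hq)) ?_ ?_
      · refine le_trans (le_of_eq ?_) h2
        apply sum_congr rfl
        intro j _
        rw [filter_filter]
        refine congrArg Real.exp (congrArg Neg.neg (congrArg (fun t : ℝ => lam * t) (congrArg Nat.cast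
          (congrArg card ?_))))
        apply filter_congr
        intro h _
        rw [forall_mem_insert]
        have e1 : x + A * (i + p * j) + h = (x + A * i + h) + p * (A * j) := by ring
        have e2 : x + A * i + A * p * j + h = x + A * (i + p * j) + h := by ring
        rw [e2]
        have e3 : p ∣ x + A * (i + p * j) + h ↔ p ∣ x + A * i + h := by
          rw [e1]
          exact Nat.dvd_add_left (Dvd.intro _ rfl)
        rw [e3]
      · intro q hq r
        refine le_trans ?_ (hHb q (mem_insert_of_mem hq) r)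
        have h3 := card_le_card (filter_subset_filter (fun h => q ∣ r + h) (filter_subset (fun h => ¬ p ∣ x + A * i + h) H))
        exact_mod_cast h3
      · intro q hq
        have hq' : q ∈ insert p P := mem_insert_of_mem hq
        apply Nat.Coprime.mul_left (hA q hq')
        rw [Nat.coprime_primes hp (hP q hq')]
        rintro rfl
        exact hpP hq
    refine (sum_le_sum h1).trans ?_
    rw [← mul_sum]
    have h2 := avg1 hp (hA p (mem_insert_self _ _)) x H lam (b p) K hlam (hb p (mem_insert_self _ _))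
      (hHb p (mem_insert_self _ _)) hK0 hK1
    have h3 : 0 ≤ ∏ q ∈ P, (q : ℝ) := prod_nonneg fun q _ => Nat.cast_nonneg _
    refine (mul_le_mul_of_nonneg_left h2 h3).trans (le_of_eq ?_)
    ring

end Pool.Agent.Y829
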