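import Pool.Agent.H50.G.S.Y829.BT1
/-! The lower bound for all sets of small primes. -/

set_option autoImplicit false

namespace Pool.Agent.Y829

open Finset Filter Topology
open Pool.Agent.W23.DC

open Classical in
/-- the survivors of a window -/
noncomputable def HS (P : Finset ℕ) (n N : ℕ) : Finset ℕ := (Icc 1 N).filter (fun h => ∀ p ∈ P, ¬ p ∣ n + h)

lemma mem_HS {P : Finset ℕ} {n N h : ℕ} : h ∈ HS P n N ↔ (1 ≤ h ∧ h ≤ N) ∧ ∀ p ∈ P, ¬ p ∣ n + h := by
  unfold HS; rw [mem_filter, mem_Icc]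

/-- the number of survivors of a window -/
noncomputable def Sf (P : Finset ℕ) (n N : ℕ) : ℝ := ((HS P n N).card : ℝ)

lemma Sf_eq {P : Finset ℕ} {n N : ℕ} :
    (((Ioc n (n + N)).filter (fun m => ∀ p ∈ P, ¬ p ∣ m)).card : ℝ) = Sf P n N := by
  unfold Sf
  have h : ((Ioc n (n + N)).filter (fun m => ∀ p ∈ P, ¬ p ∣ m)).card = (HS P n N).card := by
    apply card_nbij' (fun m => m - n) (fun h => n + h)
    · intro m hm
      rw [mem_coe, mem_filter, mem_Ioc] at hm
      rw [mem_coe, mem_HS]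
      dsimp only
      refine ⟨by omega, ?_⟩
      intro p hp
      have : n + (m - n) = m := by omega
      rw [this]
      exact hm.2 p hp
    · intro h hh
      rw [mem_coe, mem_HS] at hh
      rw [mem_coe, mem_filter, mem_Ioc]
      dsimp only
      exact ⟨by omega, hh.2⟩
    · intro m hm
      rw [mem_coe, mem_filter, mem_Ioc] at hm
      show n + (m - n) = m
      omega
    · intro h hh
      show n + h - n = h
      omega
  rw [h]

lemma V_insert {P : Finset ℕ} {p : ℕ} (hp : p ∉ P) : V (insert p P) = (1 - 1 / (p : ℝ)) * V P := by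
  unfold V; rw [prod_insert hp]

/-- The average over one prime -/
lemma avg_root {p q : ℕ} (hp : p.Prime) (hq : q.Coprime p) (x : ℕ) :
    ∑ j ∈ range p, (if ¬ p ∣ x + q * j then (1 : ℝ) else 0) = p - 1 := by
  have h1 := one_root hp hq x
  have h2 := card_filter_add_card_filter_not (s := range p) (fun j => p ∣ x + q * j)
  rw [h1, card_range] at h2
  have h3 : (((range p).filter (fun j => ¬ p ∣ x + q * j)).card : ℝ) = p - 1 := by
    rw [eq_sub_iff_add_eq, add_comm]
    exact_mod_cast h2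
  rw [← h3, card_filter]
  push_cast
  rfl

lemma remove1 {P : Finset ℕ} {p : ℕ} (hp : p.Prime) (hP : ∀ q ∈ P, q.Prime) (hpP : p ∉ P) (N : ℕ) (X : ℝ)
    (h : ∀ n, (1 - 1 / (p : ℝ)) * X ≤ Sf (insert p P) n N) (n : ℕ) : X ≤ Sf P n N := by
  classical
  have hp0 : (0 : ℝ) < p := by exact_mod_cast hp.pos
  have hp1 : (1 : ℝ) < p := by exact_mod_cast hp.one_lt
  set q := ∏ r ∈ P, r with hq
  have hqp : q.Coprime p := by
    rw [hq]
    apply Nat.Coprime.prod_left
    intro r hr
    rw [Nat.coprime_primes (hP r hr) hp]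
    rintro rfl
    exact hpP hr
  have h1 : ∑ j ∈ range p, Sf (insert p P) (n + q * j) N = (p - 1) * Sf P n N := by
    have h2 : ∀ j ∈ range p, Sf (insert p P) (n + q * j) N =
        ∑ h ∈ HS P n N, (if ¬ p ∣ (n + h) + q * j then (1 : ℝ) else 0) := by
      intro j _
      unfold Sf
      rw [← Nat.cast_one, ← Nat.cast_zero]
      have h3 : HS (insert p P) (n + q * j) N = (HS P n N).filter (fun h => ¬ p ∣ (n + h) + q * j) := by
        ext h
        rw [mem_filter, mem_HS, mem_HS, forall_mem_insert]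
        have e1 : n + q * j + h = n + h + q * j := by ring
        rw [e1]
        have e2 : (∀ r ∈ P, ¬ r ∣ n + h + q * j) ↔ ∀ r ∈ P, ¬ r ∣ n + h := by
          apply forall₂_congr
          intro r hr
          rw [not_iff_not]
          exact (Nat.dvd_add_left ((dvd_prod_of_mem _ hr).trans (Dvd.intro _ rfl)))
        rw [e2]
        tauto
      rw [h3, card_filter]
      push_cast
      rfl
    rw [sum_congr rfl h2, sum_comm]
    have h4 : ∀ h ∈ HS P n N, ∑ j ∈ range p, (if ¬ p ∣ (n + h) + q * j then (1 : ℝ) else 0) = p - 1 :=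
      fun h _ => avg_root hp hqp (n + h)
    rw [sum_congr rfl h4, sum_const, nsmul_eq_mul]
    unfold Sf
    ring
  have h2 : ∑ j ∈ range p, ((1 - 1 / (p : ℝ)) * X) ≤ ∑ j ∈ range p, Sf (insert p P) (n + q * j) N :=
    sum_le_sum fun j _ => h _
  rw [h1, sum_const, card_range, nsmul_eq_mul] at h2
  have h3 : (p : ℝ) * ((1 - 1 / (p : ℝ)) * X) = (p - 1) * X := by field_simp
  rw [h3] at h2
  exact le_of_mul_le_mul_left h2 (by linarith)

lemma remove {P : Finset ℕ} (hP : ∀ q ∈ P, q.Prime) (N : ℕ) (X : ℝ) (R : Finset ℕ) : (∀ q ∈ R, q.Prime) →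
    Disjoint P R → (∀ n, X * V (P ∪ R) ≤ Sf (P ∪ R) n N) → ∀ n, X * V P ≤ Sf P n N := by
  classical
  induction R using Finset.induction_on with
  | empty =>
    intro _ _ h n
    have := h n
    rwa [union_empty] at this
  | insert p R hpR ih =>
    intro hR hd h
    rw [disjoint_insert_right] at hd
    apply ih (fun q hq => hR q (mem_insert_of_mem hq)) hd.2
    have hpU : p ∉ P ∪ R := by
      rw [mem_union]
      rintro (h1 | h1)
      · exact hd.1 h1
      · exact hpR h1
    have e1 : P ∪ insert p R = insert p (P ∪ R) := by rw [union_insert]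
    rw [e1] at h
    apply remove1 (hR p (mem_insert_self _ _)) _ hpU
    · intro n
      have h2 := h n
      rw [V_insert hpU] at h2
      linarith
    · intro q hq
      rw [mem_union] at hq
      rcases hq with hq | hq
      · exact hP q hq
      · exact hR q (mem_insert_of_mem hq)

/-- **The sieve of intervals by small primes.** -/
theorem lemA (delta : ℝ) (h0 : 0 < delta) (h1 : delta ≤ 1 / 10) : ∃ (c : ℝ) (U0 : ℕ), 0 < c ∧
    ∀ (U n : ℕ) (P : Finset ℕ), U0 ≤ U → (∀ p ∈ P, p.Prime ∧ (p : ℝ) ≤ (U : ℝ) ^ ((1 / 2 : ℝ) - delta)) →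
    c * (U * V P) ≤ Sf P n U := by
  classical
  obtain ⟨c0, N0, z0, hc0, hls⟩ := ls (delta / 2) (by positivity) (by linarith)
  set W := Nat.factorial z0 with hW
  have hWpos : 0 < W := Nat.factorial_pos _
  have hWr : (1 : ℝ) ≤ W := by exact_mod_cast hWpos
  have ht : Tendsto (fun N : ℕ => (N : ℝ) ^ (delta / 2)) atTop atTop :=
    (tendsto_rpow_atTop (by positivity)).comp tendsto_natCast_atTop_atTop
  obtain ⟨U1, hU1⟩ := (ht.eventually_gt_atTop (2 * (W : ℝ))).exists_forall_of_atTop
  refine ⟨c0 / (2 * W), max U1 (max (2 * W) (W * (N0 + 3))), by positivity, ?_⟩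
  intro U n P hU hP
  have hUa := hU1 U ((le_max_left _ _).trans hU)
  have hUb : 2 * W ≤ U := (le_max_left _ _).trans ((le_max_right _ _).trans hU)
  have hUc : W * (N0 + 3) ≤ U := (le_max_right _ _).trans ((le_max_right _ _).trans hU)
  set N := (U - 1) / W with hN
  have hN1 : W * N ≤ U - 1 := Nat.mul_div_le _ _
  have hN2 : U - 1 < W * N + W := by
    have := Nat.lt_mul_div_succ (U - 1) hWpos
    rw [mul_add, mul_one] at this
    exact this
  have hN3 : N0 + 2 ≤ N := by
    rw [hN, Nat.le_div_iff_mul_le hWpos]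
    have : (N0 + 2) * W + W ≤ U := by
      calc (N0 + 2) * W + W = W * (N0 + 3) := by ring
        _ ≤ U := hUc
    omega
  have hUr : (0 : ℝ) < U := by
    have : 0 < U := by omega
    exact_mod_cast this
  have hNr : (U : ℝ) / (2 * W) ≤ N := by
    rw [div_le_iff₀ (by positivity)]
    have h2 : U ≤ W * N + W := by omega
    have h3 : U + U ≤ 2 * (W * N + W) := by omega
    have h4 : U ≤ 2 * (W * N) := by omega
    have h5 : (U : ℝ) ≤ 2 * (W * N) := by exact_mod_cast h4
    linarith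
  have hN0r : (0 : ℝ) < N := by
    have : 0 < N := by omega
    exact_mod_cast this
  have hpow : (U : ℝ) ^ ((1 / 2 : ℝ) - delta) < (N : ℝ) ^ ((1 / 2 : ℝ) - delta / 2) := by
    have h2 : ((U : ℝ) / (2 * W)) ^ ((1 / 2 : ℝ) - delta / 2) ≤ (N : ℝ) ^ ((1 / 2 : ℝ) - delta / 2) :=
      Real.rpow_le_rpow (by positivity) hNr (by linarith)
    refine lt_of_lt_of_le ?_ h2
    rw [Real.div_rpow hUr.le (by positivity), lt_div_iff₀ (by positivity)]
    have h3 : (2 * (W : ℝ)) ^ ((1 / 2 : ℝ) - delta / 2) ≤ 2 * W := by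
      calc (2 * (W : ℝ)) ^ ((1 / 2 : ℝ) - delta / 2) ≤ (2 * (W : ℝ)) ^ (1 : ℝ) :=
            Real.rpow_le_rpow_of_exponent_le (by linarith) (by linarith)
        _ = _ := Real.rpow_one _
    calc (U : ℝ) ^ ((1 / 2 : ℝ) - delta) * (2 * (W : ℝ)) ^ ((1 / 2 : ℝ) - delta / 2) ≤
        (U : ℝ) ^ ((1 / 2 : ℝ) - delta) * (2 * W) := mul_le_mul_of_nonneg_left h3 (by positivity)
      _ < (U : ℝ) ^ ((1 / 2 : ℝ) - delta) * (U : ℝ) ^ (delta / 2) :=
        mul_lt_mul_of_pos_left hUa (Real.rpow_pos_of_pos hUr _)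
      _ = (U : ℝ) ^ ((1 / 2 : ℝ) - delta / 2) := by
        rw [← Real.rpow_add hUr]
        congr 1
        ring
  set F := Ps N z0 ((1 / 2 : ℝ) - delta / 2) with hF
  set P1 := P.filter (fun p => z0 < p) with hP1
  have hP1p : ∀ p ∈ P1, p.Prime := fun p hp => (hP p (mem_filter.1 hp).1).1
  have hFp : ∀ p ∈ F, p.Prime := fun p hp => (mem_Ps.1 hp).2.1
  have hPF : P1 ⊆ F := by
    intro p hp
    have h2 := hP p (mem_filter.1 hp).1
    have h3 : (p : ℝ) < (N : ℝ) ^ ((1 / 2 : ℝ) - delta / 2) := lt_of_le_of_lt h2.2 hpow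
    have h4 : (p : ℝ) < N := by
      refine lt_of_lt_of_le h3 ?_
      have h5 : (1 : ℝ) ≤ N := by exact_mod_cast (by omega : 1 ≤ N)
      calc (N : ℝ) ^ ((1 / 2 : ℝ) - delta / 2) ≤ (N : ℝ) ^ (1 : ℝ) :=
            Real.rpow_le_rpow_of_exponent_le h5 (by linarith)
        _ = _ := Real.rpow_one _
    rw [mem_Ps]
    refine ⟨⟨h2.1.one_lt.le, ?_⟩, h2.1, (mem_filter.1 hp).2, ?_⟩
    · have : p < N := by exact_mod_cast h4
      exact this.le
    · exact (tt_lt (by omega) h2.1.pos _).2 h3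
  have hlow : ∀ m, (c0 * N) * V P1 ≤ Sf P1 m N := by
    apply remove hP1p N (c0 * N) (F \ P1) (fun q hq => hFp q (mem_sdiff.1 hq).1) disjoint_sdiff
    intro m
    rw [union_sdiff_of_subset hPF, ← Sf_eq, mul_assoc]
    exact hls N m (by omega)
  -- the progression
  set k0 := n / W with hk0
  set D := ∏ p ∈ P1, p with hD
  have hcop1 : ∀ p ∈ P1, p.Coprime W := by
    intro p hp
    rw [Nat.Prime.coprime_iff_not_dvd (hP1p p hp), hW, Nat.Prime.dvd_factorial (hP1p p hp)]
    have := (mem_filter.1 hp).2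
    omega
  have hDW : D.Coprime W := Nat.Coprime.prod_left hcop1
  obtain ⟨k, hk1, hk2⟩ := Nat.chineseRemainder hDW 1 0
  obtain ⟨w, hw⟩ := (Nat.modEq_zero_iff_dvd.1 hk2)
  have hinc : Sf P1 (k0 + w) N ≤ Sf P n U := by
    unfold Sf
    apply Nat.cast_le.2
    apply card_le_card_of_injOn (fun i => W * (k0 + i) + 1 - n)
    · intro i hi
      rw [mem_coe, mem_HS] at hi
      rw [mem_coe, mem_HS]
      dsimp only
      have h2 : n < W * (k0 + 1) := by
        rw [hk0]
        exact Nat.lt_mul_div_succ n hWpos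
      have h3 : W * (k0 + 1) ≤ W * (k0 + i) := Nat.mul_le_mul_left _ (by omega)
      have h4 : W * k0 ≤ n := Nat.mul_div_le _ _
      have h5 : W * i ≤ W * N := Nat.mul_le_mul_left _ (by omega)
      have h6 : W * (k0 + i) = W * k0 + W * i := by ring
      refine ⟨⟨by omega, by omega⟩, ?_⟩
      intro p hp hpd
      have h7 : n + (W * (k0 + i) + 1 - n) = W * (k0 + i) + 1 := by omega
      rw [h7] at hpd
      have hpp := (hP p hp).1
      by_cases hz : z0 < p
      · have hpP1 : p ∈ P1 := mem_filter.2 ⟨hp, hz⟩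
        apply hi.2 p hpP1
        have h8 : p ∣ W * (k0 + w + i) := by
          have h9 : W * (k0 + w + i) ≡ W * (k0 + i) + 1 [MOD p] := by
            have h10 : W * (k0 + w + i) = W * (k0 + i) + k := by rw [hw]; ring
            rw [h10]
            apply Nat.ModEq.add_left
            exact hk1.of_dvd (dvd_prod_of_mem _ hpP1)
          exact (Nat.ModEq.dvd_iff h9 dvd_rfl).2 hpd
        exact (hcop1 p hpP1).dvd_of_dvd_mul_left h8
      · have h8 : p ∣ W := by
          rw [hW, Nat.Prime.dvd_factorial hpp]; omega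
        have h9 : p ∣ 1 := (Nat.dvd_add_right (h8.trans (Dvd.intro _ rfl))).1 hpd
        exact hpp.one_lt.ne' (Nat.dvd_one.1 h9)
    · intro i hi i' hi' hii
      rw [mem_coe, mem_HS] at hi hi'
      have h2 : n < W * (k0 + 1) := by
        rw [hk0]
        exact Nat.lt_mul_div_succ n hWpos
      have h3 : W * (k0 + 1) ≤ W * (k0 + i) := Nat.mul_le_mul_left _ (by omega)
      have h4 : W * (k0 + 1) ≤ W * (k0 + i') := Nat.mul_le_mul_left _ (by omega)
      have h5 : W * (k0 + i) = W * (k0 + i') := by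
        have : W * (k0 + i) + 1 - n = W * (k0 + i') + 1 - n := hii
        omega
      have h6 := Nat.eq_of_mul_eq_mul_left hWpos h5
      omega
  refine le_trans ?_ hinc
  refine le_trans ?_ (hlow _)
  have hVP : V P ≤ V P1 := V_mono (filter_subset _ _) fun p hp => (hP p hp).1
  have hVP0 : 0 < V P := V_pos fun p hp => (hP p hp).1
  calc c0 / (2 * W) * (U * V P) = c0 * (U / (2 * W)) * V P := by field_simp
    _ ≤ c0 * N * V P1 := by
      apply mul_le_mul (mul_le_mul_of_nonneg_left hNr hc0.le) hVP hVP0.le (by positivity)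

end Pool.Agent.Y829
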