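import Pool.Agent.H50.G.S.Y829.BT2
/-! The tail bound. -/

set_option autoImplicit false

namespace Pool.Agent.Y829

open Finset Filter Topology
open Pool.Agent.W23.DC

lemma cntH (p r U : ℕ) (hp : 0 < p) :
    (((Icc 1 U).filter (fun h => p ∣ r + h)).card : ℝ) ≤ (U : ℝ) / p + 1 := by
  have h1 := (abs_le.1 (cnt p r U hp)).2
  have h2 : ((Icc 1 U).filter (fun h => p ∣ r + h)).card = ((Ioc r (r + U)).filter (fun n => p ∣ n)).card := by
    apply card_nbij' (fun h => r + h) (fun m => m - r)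
    · intro h hh
      rw [mem_coe, mem_filter, mem_Icc] at hh
      rw [mem_coe, mem_filter, mem_Ioc]
      dsimp only
      exact ⟨by omega, hh.2⟩
    · intro m hm
      rw [mem_coe, mem_filter, mem_Ioc] at hm
      rw [mem_coe, mem_filter, mem_Icc]
      dsimp only
      refine ⟨by omega, ?_⟩
      have : r + (m - r) = m := by omega
      rw [this]
      exact hm.2
    · intro h hh
      show r + h - r = h
      omega
    · intro m hm
      rw [mem_coe, mem_filter, mem_Ioc] at hm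
      show r + (m - r) = m
      omega
  rw [h2]
  linarith

lemma weier (P : Finset ℕ) (g : ℕ → ℝ) : (∀ p ∈ P, 0 ≤ g p ∧ g p ≤ 1) → 1 - ∑ p ∈ P, g p ≤ ∏ p ∈ P, (1 - g p) := by
  induction P using Finset.induction_on with
  | empty => intro _; simp
  | insert p P hp ih =>
    intro h
    have h1 := ih fun q hq => h q (mem_insert_of_mem hq)
    have h2 := h p (mem_insert_self _ _)
    rw [sum_insert hp, prod_insert hp]
    have h3 : 0 ≤ ∑ q ∈ P, g q := sum_nonneg fun q hq => (h q (mem_insert_of_mem hq)).1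
    have h4 : (1 - g p) * (1 - ∑ q ∈ P, g q) ≤ (1 - g p) * ∏ q ∈ P, (1 - g q) :=
      mul_le_mul_of_nonneg_left h1 (by linarith)
    nlinarith [mul_nonneg h2.1 h3]

lemma prodlow (P : Finset ℕ) (hP : ∀ p ∈ P, p.Prime) (g : ℕ → ℝ) (hg : ∀ p ∈ P, 0 ≤ g p ∧ g p ≤ 1) :
    V P * (1 - ∑ p ∈ P, g p / ((p : ℝ) - 1)) ≤ ∏ p ∈ P, (1 - (1 + g p) / (p : ℝ)) := by
  have h1 : ∀ p ∈ P, 1 - (1 + g p) / (p : ℝ) = (1 - 1 / (p : ℝ)) * (1 - g p / ((p : ℝ) - 1)) := by
    intro p hp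
    have h2 : (2 : ℝ) ≤ p := by exact_mod_cast (hP p hp).two_le
    have h3 : (p : ℝ) - 1 ≠ 0 := by linarith
    have h4 : (p : ℝ) ≠ 0 := by linarith
    field_simp
    ring
  rw [prod_congr rfl h1, prod_mul_distrib]
  apply mul_le_mul_of_nonneg_left _ (V_pos hP).le
  apply weier
  intro p hp
  have h2 : (2 : ℝ) ≤ p := by exact_mod_cast (hP p hp).two_le
  constructor
  · exact div_nonneg (hg p hp).1 (by linarith)
  · rw [div_le_one (by linarith)]
    linarith [(hg p hp).2]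

lemma sum_inv (P : Finset ℕ) (hP : ∀ p ∈ P, p.Prime) : ∑ p ∈ P, 1 / ((p : ℝ) - 1) ≤ -(2 * Real.log (V P)) := by
  unfold V
  rw [Real.log_prod (fun p hp => (fac_pos (hP p hp)).ne'), mul_sum, ← sum_neg_distrib]
  apply sum_le_sum
  intro p hp
  have h2 : (2 : ℝ) ≤ p := by exact_mod_cast (hP p hp).two_le
  have h3 := Real.log_le_sub_one_of_pos (fac_pos (hP p hp))
  have h4 : 1 / ((p : ℝ) - 1) ≤ 2 * (1 / (p : ℝ)) := by
    rw [mul_one_div, div_le_div_iff₀ (by linarith) (by linarith)]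
    linarith
  linarith

/-- one stage -/
lemma stage (P : Finset ℕ) (lam : ℝ) (b : ℕ → ℝ) (H : Finset ℕ) (x A : ℕ) (K : ℝ) (hP : ∀ p ∈ P, p.Prime)
    (hlam : 0 ≤ lam) (hb : ∀ p ∈ P, lam * b p ≤ 1)
    (hHb : ∀ p ∈ P, ∀ r : ℕ, ((H.filter (fun h => p ∣ r + h)).card : ℝ) ≤ b p)
    (hA : ∀ p ∈ P, A.Coprime p) (hK : ∑ p ∈ P, lam * b p / ((p : ℝ) - 1) ≤ 1 / 2) (hKV : K = V P / 2) (S : ℕ → ℝ)
    (hS : ∀ j, S j = (((H.filter (fun h => ∀ p ∈ P, ¬ p ∣ x + A * j + h)).card : ℕ) : ℝ)) :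
    ∑ j ∈ range (∏ p ∈ P, p), Real.exp (-(lam * S j)) ≤
      (∏ p ∈ P, (p : ℝ)) * Real.exp (-(lam * (H.card : ℝ) * K)) := by
  classical
  have h1 := expm P lam b H x A hP hlam hb hHb hA
  have h2 : ∑ j ∈ range (∏ p ∈ P, p), Real.exp (-(lam * S j)) =
      ∑ j ∈ range (∏ p ∈ P, p), Real.exp (-(lam * ((H.filter (fun h => ∀ p ∈ P, ¬ p ∣ x + A * j + h)).card : ℝ))) := by
    apply sum_congr rfl
    intro j _
    rw [hS j]
  rw [h2]
  refine h1.trans ?_
  apply mul_le_mul_of_nonneg_left _ (prod_nonneg fun q _ => Nat.cast_nonneg _)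
  apply Real.exp_le_exp.2
  have h3 := prodlow P hP (fun p => lam * b p) (fun p hp => ⟨mul_nonneg hlam ((Nat.cast_nonneg _).trans (hHb p hp 0)),
    hb p hp⟩)
  have h4 : K ≤ ∏ p ∈ P, (1 - (1 + lam * b p) / (p : ℝ)) := by
    refine le_trans ?_ h3
    rw [hKV]
    have := mul_le_mul_of_nonneg_left (show (1 : ℝ) / 2 ≤ 1 - ∑ p ∈ P, lam * b p / ((p : ℝ) - 1) by linarith)
      (V_pos hP).le
    linarith
  have h5 : lam * (H.card : ℝ) * K ≤ lam * (H.card : ℝ) * ∏ p ∈ P, (1 - (1 + lam * b p) / (p : ℝ)) :=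
    mul_le_mul_of_nonneg_left h4 (by positivity)
  linarith

lemma HS_add (P : Finset ℕ) (i j U D : ℕ) (hD : ∀ p ∈ P, p ∣ D) : HS P (i + D * j) U = HS P i U := by
  ext h
  rw [mem_HS, mem_HS]
  have e1 : i + D * j + h = i + h + D * j := by ring
  rw [e1]
  have e2 : (∀ r ∈ P, ¬ r ∣ i + h + D * j) ↔ ∀ r ∈ P, ¬ r ∣ i + h := by
    apply forall₂_congr
    intro r hr
    rw [not_iff_not]
    exact (Nat.dvd_add_left ((hD r hr).trans (Dvd.intro _ rfl)))
  rw [e2]

lemma HS_union (P R : Finset ℕ) (n U : ℕ) [DecidableEq ℕ] :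
    HS (P ∪ R) n U = (HS P n U).filter (fun h => ∀ p ∈ R, ¬ p ∣ n + h) := by
  ext h
  rw [mem_filter, mem_HS, mem_HS]
  simp only [mem_union]
  constructor
  · rintro ⟨h1, h2⟩
    exact ⟨⟨h1, fun p hp => h2 p (Or.inl hp)⟩, fun p hp => h2 p (Or.inr hp)⟩
  · rintro ⟨⟨h1, h2⟩, h3⟩
    refine ⟨h1, fun p hp => ?_⟩
    rcases hp with hp | hp
    · exact h2 p hp
    · exact h3 p hp

lemma HS_sub (P : Finset ℕ) (n U r p : ℕ) :
    (((HS P n U).filter (fun h => p ∣ r + h)).card : ℝ) ≤ (((Icc 1 U).filter (fun h => p ∣ r + h)).card : ℝ) := by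
  apply Nat.cast_le.2
  apply card_le_card
  apply filter_subset_filter
  unfold HS
  exact filter_subset _ _

/-- two stages at once -/
theorem twost (Ps Pm Pl : Finset ℕ) (U : ℕ) (lam1 lam2 y c1 : ℝ) (hs : ∀ p ∈ Ps, p.Prime) (hm : ∀ p ∈ Pm, p.Prime)
    (hl : ∀ p ∈ Pl, p.Prime) (dsm : Disjoint Ps Pm) (dsl : Disjoint (Ps ∪ Pm) Pl)
    (hml : ∀ p ∈ Pm, y < p ∧ p ≤ U) (hll : ∀ p ∈ Pl, U < p) (hy : 2 ≤ y) (hU : 0 < U)
    (hlam1 : 0 ≤ lam1) (hlam1' : lam1 ≤ 1) (hsum : lam1 * -(2 * Real.log (V Pl)) ≤ 1 / 2)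
    (hlam2 : lam2 = lam1 * V Pl / 2) (hlam2' : lam2 = y / (16 * U))
    (hc1 : ∀ n, c1 * (U * V Ps) ≤ Sf Ps n U) :
    ∑ n ∈ range ((∏ p ∈ Ps, p) * (∏ p ∈ Pm, p) * (∏ p ∈ Pl, p)), Real.exp (-(lam1 * Sf (Ps ∪ Pm ∪ Pl) n U)) ≤
      (((∏ p ∈ Ps, p) * (∏ p ∈ Pm, p) * (∏ p ∈ Pl, p) : ℕ) : ℝ) *
        Real.exp (-(c1 * y * (V Ps * V Pm) / 32)) := by
  classical
  set Ds := ∏ p ∈ Ps, p with hDs
  set Dm := ∏ p ∈ Pm, p with hDm
  set Dl := ∏ p ∈ Pl, p with hDl
  have hU0 : (0 : ℝ) < U := by exact_mod_cast hU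
  have hlam20 : 0 ≤ lam2 := by rw [hlam2']; positivity
  have copr : ∀ (P R : Finset ℕ), (∀ p ∈ P, p.Prime) → (∀ p ∈ R, p.Prime) → Disjoint P R →
      ∀ p ∈ R, (∏ q ∈ P, q).Coprime p := by
    intro P R hP hR hd p hp
    apply Nat.Coprime.prod_left
    intro q hq
    rw [Nat.coprime_primes (hP q hq) (hR p hp)]
    rintro rfl
    exact disjoint_left.1 hd hq hp
  have hsm : ∀ p ∈ Ps ∪ Pm, p.Prime := by
    intro p hp
    rcases mem_union.1 hp with h | h
    · exact hs p h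
    · exact hm p h
  have hDsm : Ds * Dm = ∏ p ∈ Ps ∪ Pm, p := by rw [prod_union dsm]
  rw [sum_split]
  -- stage one
  have st1 : ∀ i ∈ range (Ds * Dm), ∑ j ∈ range Dl, Real.exp (-(lam1 * Sf (Ps ∪ Pm ∪ Pl) (i + Ds * Dm * j) U)) ≤
      (Dl : ℝ) * Real.exp (-(lam2 * Sf (Ps ∪ Pm) i U)) := by
    intro i _
    have h1 := stage Pl lam1 (fun _ => 1) (HS (Ps ∪ Pm) i U) i (Ds * Dm) (V Pl / 2) hl hlam1
      (fun p _ => by simpa using hlam1') ?_ ?_ ?_ rfl (fun j => Sf (Ps ∪ Pm ∪ Pl) (i + Ds * Dm * j) U) ?_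
    · have h2 : ((∏ p ∈ Pl, (p : ℝ))) = (Dl : ℝ) := by rw [hDl]; push_cast; rfl
      rw [h2] at h1
      refine h1.trans (le_of_eq ?_)
      congr 3
      rw [hlam2]
      unfold Sf
      ring
    · intro p hp r
      refine (HS_sub _ _ _ _ _).trans ?_
      have h2 := cntH p r U (hl p hp).pos
      have h3 : (U : ℝ) / p < 1 := by
        rw [div_lt_one (by exact_mod_cast (hl p hp).pos)]
        exact_mod_cast hll p hp
      have h4 : (((Icc 1 U).filter (fun h => p ∣ r + h)).card : ℝ) < 2 := by linarith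
      have h5 : ((Icc 1 U).filter (fun h => p ∣ r + h)).card < 2 := by exact_mod_cast h4
      have h6 : ((Icc 1 U).filter (fun h => p ∣ r + h)).card ≤ 1 := by omega
      exact_mod_cast h6
    · rw [hDsm]
      exact copr _ _ hsm hl dsl
    · have h2 := sum_inv Pl hl
      have h3 := mul_le_mul_of_nonneg_left h2 hlam1
      have h4 : ∑ p ∈ Pl, lam1 * 1 / ((p : ℝ) - 1) = lam1 * ∑ p ∈ Pl, 1 / ((p : ℝ) - 1) := by
        rw [mul_sum]
        apply sum_congr rfl
        intro p _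
        ring
      rw [h4]
      linarith
    · intro j
      unfold Sf
      rw [HS_union, HS_add (Ps ∪ Pm)]
      intro p hp
      rw [hDsm]
      exact dvd_prod_of_mem _ hp
  have st2 : ∀ i ∈ range Ds, ∑ j ∈ range Dm, Real.exp (-(lam2 * Sf (Ps ∪ Pm) (i + Ds * j) U)) ≤
      (Dm : ℝ) * Real.exp (-(c1 * y * (V Ps * V Pm) / 32)) := by
    intro i _
    have h1 := stage Pm lam2 (fun p => 2 * U / p) (HS Ps i U) i Ds (V Pm / 2) hm hlam20 ?_ ?_ ?_ ?_ rfl
      (fun j => Sf (Ps ∪ Pm) (i + Ds * j) U) ?_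
    · have h2 : ((∏ p ∈ Pm, (p : ℝ))) = (Dm : ℝ) := by rw [hDm]; push_cast; rfl
      rw [h2] at h1
      refine h1.trans ?_
      apply mul_le_mul_of_nonneg_left _ (Nat.cast_nonneg _)
      apply Real.exp_le_exp.2
      have h3 := hc1 i
      have h4 : lam2 * (c1 * (U * V Ps)) * (V Pm / 2) ≤ lam2 * Sf Ps i U * (V Pm / 2) := by
        apply mul_le_mul_of_nonneg_right _ (by have := V_pos hm; positivity)
        exact mul_le_mul_of_nonneg_left h3 hlam20
      have h5 : lam2 * (c1 * (U * V Ps)) * (V Pm / 2) = c1 * y * (V Ps * V Pm) / 32 := by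
        rw [hlam2']; field_simp; ring
      rw [h5] at h4
      unfold Sf at h4
      linarith
    · intro p hp
      have hp0 : (0 : ℝ) < p := by exact_mod_cast (hm p hp).pos
      have h2 := (hml p hp).1
      rw [hlam2']
      have h3 : y / (16 * (U : ℝ)) * (2 * U / p) = y / (8 * p) := by field_simp; ring
      rw [h3, div_le_one (by positivity)]
      linarith
    · intro p hp r
      refine (HS_sub _ _ _ _ _).trans ?_
      have hp0 : (0 : ℝ) < p := by exact_mod_cast (hm p hp).pos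
      have h2 := cntH p r U (hm p hp).pos
      have h3 : (1 : ℝ) ≤ U / p := by
        rw [le_div_iff₀ hp0, one_mul]
        exact_mod_cast (hml p hp).2
      have h4 : 2 * (U : ℝ) / p = U / p + U / p := by ring
      rw [h4]
      linarith
    · exact copr _ _ hs hm dsm
    · have hy0 : (0 : ℝ) ≤ y := by linarith
      have hfl : 1 ≤ ⌊y⌋₊ := Nat.le_floor (by push_cast; linarith)
      have hfl2 : y < ⌊y⌋₊ + 1 := Nat.lt_floor_add_one y
      by_cases hyU : ⌊y⌋₊ ≤ U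
      · have h2 : ∀ p ∈ Pm, lam2 * (2 * U / p) / ((p : ℝ) - 1) = y / 8 * (1 / ((p : ℝ) - 1) - 1 / (p : ℝ)) := by
          intro p hp
          have h3 : (2 : ℝ) ≤ p := by exact_mod_cast (hm p hp).two_le
          have h4 : (p : ℝ) - 1 ≠ 0 := by linarith
          have h5 : (p : ℝ) ≠ 0 := by linarith
          rw [hlam2']
          field_simp
          ring
        rw [sum_congr rfl h2, ← mul_sum]
        have h3 : ∑ p ∈ Pm, (1 / ((p : ℝ) - 1) - 1 / (p : ℝ)) ≤ 1 / (⌊y⌋₊ : ℝ) := by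
          refine le_trans ?_ (Pool.Agent.W378.DC.TMP.shift_prime hfl hyU).2
          apply sum_le_sum_of_subset_of_nonneg
          · intro p hp
            have h4 := hml p hp
            rw [mem_filter, mem_Ioc]
            refine ⟨⟨?_, h4.2⟩, hm p hp⟩
            rw [Nat.floor_lt hy0]
            exact h4.1
          · intro p hp _
            have h4 : (2 : ℝ) ≤ p := by exact_mod_cast (mem_filter.1 hp).2.two_le
            have h8 : 1 / (p : ℝ) ≤ 1 / ((p : ℝ) - 1) := one_div_le_one_div_of_le (by linarith) (by linarith)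
            linarith
        have h4 := mul_le_mul_of_nonneg_left h3 (show 0 ≤ y / 8 by linarith)
        refine h4.trans ?_
        have h5 : (1 : ℝ) ≤ ⌊y⌋₊ := by exact_mod_cast hfl
        rw [mul_one_div, div_le_div_iff₀ (by linarith) (by norm_num)]
        linarith
      · have h2 : Pm = ∅ := by
          rw [eq_empty_iff_forall_notMem]
          intro p hp
          have h4 := hml p hp
          apply hyU
          have h5 : y < (U : ℝ) := by
            refine h4.1.trans_le ?_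
            exact_mod_cast h4.2
          exact (Nat.floor_lt hy0).2 h5 |>.le
        rw [h2]
        simp
    · intro j
      unfold Sf
      rw [HS_union, HS_add Ps]
      intro p hp
      exact dvd_prod_of_mem _ hp
  calc ∑ i ∈ range (Ds * Dm), ∑ j ∈ range Dl, Real.exp (-(lam1 * Sf (Ps ∪ Pm ∪ Pl) (i + Ds * Dm * j) U)) ≤
      ∑ i ∈ range (Ds * Dm), (Dl : ℝ) * Real.exp (-(lam2 * Sf (Ps ∪ Pm) i U)) := sum_le_sum st1
    _ = (Dl : ℝ) * ∑ i ∈ range Ds, ∑ j ∈ range Dm, Real.exp (-(lam2 * Sf (Ps ∪ Pm) (i + Ds * j) U)) := by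
      rw [← mul_sum, sum_split]
    _ ≤ (Dl : ℝ) * ∑ i ∈ range Ds, (Dm : ℝ) * Real.exp (-(c1 * y * (V Ps * V Pm) / 32)) :=
      mul_le_mul_of_nonneg_left (sum_le_sum st2) (Nat.cast_nonneg _)
    _ = _ := by
      rw [sum_const, card_range, nsmul_eq_mul]
      push_cast
      ring

end Pool.Agent.Y829
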