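import Pool.Agent.H50.G.S.Y829.BT5
/-! Sieve weights cannot see large gaps: assembly. -/

set_option autoImplicit false

namespace Pool.Agent.Y829

open Finset

lemma per_sum {G : ℕ → ℝ} {T : ℕ} (h : ∀ n, G (n + T) = G n) (k : ℕ) :
    ∑ n ∈ range (T * k), G n = k * ∑ n ∈ range T, G n := by
  rw [sum_split, mul_sum]
  apply sum_congr rfl
  intro i _
  rw [sum_congr rfl fun j _ => per_mul h i j, sum_const, card_range, nsmul_eq_mul]

open Classical in
lemma fullavg (R : Finset ℕ) : ∀ (H : Finset ℕ) (x A : ℕ), (∀ p ∈ R, p.Prime) → (∀ p ∈ R, A.Coprime p) →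
    ∑ j ∈ range (∏ p ∈ R, p), ((H.filter (fun h => ∀ p ∈ R, ¬ p ∣ x + A * j + h)).card : ℝ) =
      (∏ p ∈ R, ((p : ℝ) - 1)) * H.card := by
  induction R using Finset.induction_on with
  | empty =>
    intro H x A _ _
    simp
  | insert p R hpR ih =>
    intro H x A hR hA
    have hp : p.Prime := hR p (mem_insert_self _ _)
    rw [prod_insert hpR, prod_insert hpR, sum_split]
    have h1 : ∀ i ∈ range p, ∑ j ∈ range (∏ q ∈ R, q),
        ((H.filter (fun h => ∀ q ∈ insert p R, ¬ q ∣ x + A * (i + p * j) + h)).card : ℝ) =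
        (∏ q ∈ R, ((q : ℝ) - 1)) * ((H.filter (fun h => ¬ p ∣ x + A * i + h)).card : ℝ) := by
      intro i _
      have h2 := ih (H.filter (fun h => ¬ p ∣ x + A * i + h)) (x + A * i) (A * p)
        (fun q hq => hR q (mem_insert_of_mem hq)) ?_
      · rw [← h2]
        apply sum_congr rfl
        intro j _
        rw [filter_filter]
        refine congrArg Nat.cast (congrArg card ?_)
        apply filter_congr
        intro h _
        rw [forall_mem_insert]
        have e1 : x + A * (i + p * j) + h = (x + A * i + h) + p * (A * j) := by ring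
        have e2 : x + A * i + A * p * j + h = x + A * (i + p * j) + h := by ring
        rw [e2]
        have e3 : p ∣ x + A * (i + p * j) + h ↔ p ∣ x + A * i + h := by
          rw [e1]
          exact Nat.dvd_add_left (Dvd.intro _ rfl)
        rw [e3]
      · intro q hq
        have hq' : q ∈ insert p R := mem_insert_of_mem hq
        apply Nat.Coprime.mul_left (hA q hq')
        rw [Nat.coprime_primes hp (hR q hq')]
        rintro rfl
        exact hpR hq
    rw [sum_congr rfl h1, ← mul_sum]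
    have h2 : ∑ i ∈ range p, ((H.filter (fun h => ¬ p ∣ x + A * i + h)).card : ℝ) = (p - 1) * H.card := by
      simp only [card_filter]
      push_cast
      rw [sum_comm]
      have h3 : ∀ h ∈ H, ∑ i ∈ range p, (if ¬ p ∣ x + A * i + h then (1 : ℝ) else 0) = p - 1 := by
        intro h _
        have h4 := avg_root hp (hA p (mem_insert_self _ _)) (x + h)
        refine (sum_congr rfl fun i _ => ?_).trans h4
        rw [add_right_comm]
      rw [sum_congr rfl h3, sum_const, nsmul_eq_mul]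
      ring
    rw [h2]
    ring

lemma cop_iff {M m : ℕ} (hM : 0 < M) : m.Coprime M ↔ ∀ p ∈ M.primeFactors, ¬ p ∣ m := by
  constructor
  · intro h p hp hpm
    rw [Nat.mem_primeFactors] at hp
    have := Nat.dvd_gcd hpm hp.2.1
    rw [Nat.coprime_iff_gcd_eq_one.1 h] at this
    exact hp.1.one_lt.ne' (Nat.dvd_one.1 this)
  · intro h
    by_contra h1
    rw [Nat.Prime.not_coprime_iff_dvd] at h1
    obtain ⟨p, hp, hpm, hpM⟩ := h1
    exact h p (Nat.mem_primeFactors.2 ⟨hp, hpM, hM.ne'⟩) hpm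

lemma V_tot {M : ℕ} (hM : 0 < M) : V M.primeFactors = (M.totient : ℝ) / M := by
  have h := Nat.totient_eq_mul_prod_factors M
  have hM0 : (M : ℝ) ≠ 0 := by exact_mod_cast hM.ne'
  have h1 : (M.totient : ℝ) = M * V M.primeFactors := by
    have h2 := congrArg (fun q : ℚ => (q : ℝ)) h
    push_cast at h2
    rw [h2]
    unfold V
    simp only [one_div]
  rw [h1]
  field_simp

/-- **Main theorem** -/
theorem main (a : ℝ) (ha : 0 < a) (ha' : a < 1 / 2) : ∃ (c : ℝ) (U1 : ℕ), 0 < c ∧
    ∀ (U Q M N : ℕ) (w : ℕ → ℝ), U1 ≤ U → 1 ≤ Q →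
    Real.log Q ≤ (U : ℝ) ^ a → 0 < M → 0 < N → M ∣ N → (∀ d ∈ Icc 1 Q, d ∣ N) → (∀ n, 0 ≤ w n) →
    Lev Q w →
    c * U * ((M.totient : ℝ) / M) * ∑ n ∈ range N, w n ≤
      ∑ n ∈ range N, w n * (((Icc 1 U).filter (fun h => (n + h).Coprime M)).card : ℝ) ∧
    ((∀ p, p.Prime → p ∣ M → Real.log p ≤ (U : ℝ) ^ a) →
      ∑ n ∈ (range N).filter (fun n => (((Icc 1 U).filter (fun h => (n + h).Coprime M)).card : ℝ) <
        c * U * ((M.totient : ℝ) / M)), w n ≤ Real.exp (-(U : ℝ) ^ a) * ∑ n ∈ range N, w n) := by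
  classical
  obtain ⟨c, U1, hc, hU12, htail⟩ := tail a ha ha'
  refine ⟨c / 2, U1, by positivity, ?_⟩
  intro U Q M N w hU hQ hlog hM hN hMN hdN hw0 hw
  have hQ0 : (0 : ℝ) < Q := by exact_mod_cast hQ
  have hUr : (1 : ℝ) ≤ U := by exact_mod_cast (by omega : 1 ≤ U)
  have hUa1 : 1 ≤ (U : ℝ) ^ a := Real.one_le_rpow hUr ha.le
  have hQexp : (Q : ℝ) ^ 2 ≤ Real.exp (2 * (U : ℝ) ^ a) := by
    have h1 : (Q : ℝ) ≤ Real.exp ((U : ℝ) ^ a) := (Real.log_le_iff_le_exp hQ0).1 hlog
    calc (Q : ℝ) ^ 2 ≤ (Real.exp ((U : ℝ) ^ a)) ^ 2 := pow_le_pow_left₀ hQ0.le h1 2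
      _ = Real.exp (2 * (U : ℝ) ^ a) := by rw [← Real.exp_nat_mul]; norm_num
  have hQexp3 : 2 * (Q : ℝ) ^ 2 ≤ Real.exp (3 * (U : ℝ) ^ a) := by
    have h1 : (2 : ℝ) ≤ Real.exp ((U : ℝ) ^ a) := by
      have h5 := Real.add_one_le_exp ((U : ℝ) ^ a)
      linarith
    have h2 : Real.exp (3 * (U : ℝ) ^ a) = Real.exp ((U : ℝ) ^ a) * Real.exp (2 * (U : ℝ) ^ a) := by
      rw [← Real.exp_add]; congr 1; ring
    rw [h2]
    exact mul_le_mul h1 hQexp (by positivity) (Real.exp_pos _).le
  set P := M.primeFactors with hP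
  have hPp : ∀ p ∈ P, p.Prime := fun p hp => (Nat.mem_primeFactors.1 hp).1
  have hSf : ∀ n, (((Icc 1 U).filter (fun h => (n + h).Coprime M)).card : ℝ) = Sf P n U := by
    intro n
    unfold Sf
    refine congrArg Nat.cast (congrArg card ?_)
    ext h
    rw [mem_filter, mem_HS, mem_Icc, cop_iff hM]
  have hSfper : ∀ (R : Finset ℕ) (T n : ℕ), (∀ p ∈ R, p ∣ T) → Sf R (n + T) U = Sf R n U := by
    intro R T n hR
    unfold Sf
    have := HS_add R n 1 U T hR
    rw [mul_one] at this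
    rw [this]
  -- the number of bad residues
  have hbad : ∀ (R : Finset ℕ) (T : ℕ), (∀ p ∈ R, p.Prime ∧ Real.log p ≤ (U : ℝ) ^ a) → (∏ p ∈ R, p) ∣ T → 0 < T →
      (((range T).filter (fun n => Sf R n U < c * (U * V R))).card : ℝ) * Real.exp (3 * (U : ℝ) ^ a) ≤ T := by
    intro R T hR hRT hT
    have ht := htail U R hU hR
    obtain ⟨k1, hk1⟩ := hRT
    set D1 := ∏ p ∈ R, p with hD1
    have h1 : (((range T).filter (fun n => Sf R n U < c * (U * V R))).card : ℝ) =
        k1 * (((range D1).filter (fun n => Sf R n U < c * (U * V R))).card : ℝ) := by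
      rw [card_filter, card_filter]
      push_cast
      rw [hk1, per_sum (G := fun n => if Sf R n U < c * (U * V R) then (1 : ℝ) else 0) (T := D1)]
      intro n
      show (if Sf R (n + D1) U < c * (U * V R) then (1 : ℝ) else 0) = if Sf R n U < c * (U * V R) then (1 : ℝ) else 0
      rw [hSfper R D1 n fun p hp => dvd_prod_of_mem (fun x : ℕ => x) hp]
    rw [h1, mul_assoc, hk1]
    push_cast
    rw [mul_comm (D1 : ℝ)]
    exact mul_le_mul_of_nonneg_left (by exact_mod_cast ht) (Nat.cast_nonneg _)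
  have hNr : (0 : ℝ) < N := by exact_mod_cast hN
  have hT0' : 0 ≤ ∑ n ∈ range N, w n := sum_nonneg fun n _ => hw0 n
  refine ⟨?_, ?_⟩
  swap
  · intro hMp
    have hPR : ∀ p ∈ P, p.Prime ∧ Real.log p ≤ (U : ℝ) ^ a := fun p hp =>
      ⟨hPp p hp, hMp p (hPp p hp) (Nat.mem_primeFactors.1 hp).2.1⟩
    have hPN : (∏ p ∈ P, p) ∣ N := (Nat.prod_primeFactors_dvd M).trans hMN
    have h1 := hbad P N hPR hPN hN
    have hVpos : 0 < V P := V_pos hPp
    set B := (range N).filter (fun n => Sf P n U < c * (U * V P)) with hB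
    have h2 : (range N).filter (fun n => (((Icc 1 U).filter (fun h => (n + h).Coprime M)).card : ℝ) <
        c / 2 * U * ((M.totient : ℝ) / M)) ⊆ B := by
      intro n hn
      rw [mem_filter] at hn ⊢
      refine ⟨hn.1, ?_⟩
      have h3 := hn.2
      rw [hSf, ← V_tot hM] at h3
      refine h3.trans_le ?_
      have h4 : 0 ≤ c * (U * V P) := by positivity
      rw [← hP]
      linarith
    refine (sum_le_sum_of_subset_of_nonneg h2 fun n _ _ => hw0 n).trans ?_
    have h3 : ∀ n ∈ B, w n ≤ (Q : ℝ) ^ 2 * (∑ n ∈ range N, w n) / N := by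
      intro n _
      rw [le_div_iff₀ hNr, mul_comm]
      exact supb N Q hN hdN w hw0 hw n
    refine (sum_le_sum h3).trans ?_
    rw [sum_const, nsmul_eq_mul, ← mul_div_assoc, div_le_iff₀ hNr]
    have h4 : (B.card : ℝ) * (Q : ℝ) ^ 2 ≤ Real.exp (-(U : ℝ) ^ a) * N := by
      calc (B.card : ℝ) * (Q : ℝ) ^ 2 ≤ (B.card : ℝ) * Real.exp (2 * (U : ℝ) ^ a) :=
            mul_le_mul_of_nonneg_left hQexp (Nat.cast_nonneg _)
        _ = Real.exp (-(U : ℝ) ^ a) * ((B.card : ℝ) * Real.exp (3 * (U : ℝ) ^ a)) := by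
            have : Real.exp (2 * (U : ℝ) ^ a) = Real.exp (-(U : ℝ) ^ a) * Real.exp (3 * (U : ℝ) ^ a) := by
              rw [← Real.exp_add]; congr 1; ring
            rw [this]; ring
        _ ≤ _ := mul_le_mul_of_nonneg_left h1 (Real.exp_pos _).le
    have h5 := mul_le_mul_of_nonneg_right h4 hT0'
    linarith
  set P1 := P.filter (fun p => p ≤ Q) with hP1
  set P2 := P.filter (fun p => Q < p) with hP2
  have hP1p : ∀ p ∈ P1, p.Prime := fun p hp => hPp p (mem_filter.1 hp).1
  have hP2p : ∀ p ∈ P2, p.Prime := fun p hp => hPp p (mem_filter.1 hp).1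
  have hd12 : Disjoint P1 P2 := by
    rw [disjoint_left]
    intro p hp hp'
    have h1 := (mem_filter.1 hp).2
    have h2 := (mem_filter.1 hp').2
    omega
  have hun : P1 ∪ P2 = P := by
    ext p
    rw [mem_union, mem_filter, mem_filter]
    constructor
    · rintro (h | h) <;> exact h.1
    · intro hp
      by_cases h5 : p ≤ Q
      · exact Or.inl ⟨hp, h5⟩
      · exact Or.inr ⟨hp, not_le.1 h5⟩
  set A := (Icc 1 Q).lcm id with hA
  have hAd : ∀ d ∈ Icc 1 Q, d ∣ A := fun d hd => Finset.dvd_lcm hd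
  have hAN : A ∣ N := Finset.lcm_dvd fun d hd => hdN d hd
  have hA0 : 0 < A := Nat.pos_of_dvd_of_pos hAN hN
  have hAfac : A ∣ Q.factorial := by
    apply Finset.lcm_dvd
    intro d hd
    rw [mem_Icc] at hd
    exact Nat.dvd_factorial (show 0 < d by omega) hd.2
  have hAP2 : ∀ p ∈ P2, A.Coprime p := by
    intro p hp
    rw [Nat.coprime_comm, Nat.Prime.coprime_iff_not_dvd (hP2p p hp)]
    intro h1
    have h2 := (Nat.Prime.dvd_factorial (hP2p p hp)).1 (h1.trans hAfac)
    have h3 := (mem_filter.1 hp).2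
    omega
  set D1 := ∏ p ∈ P1, p with hD1
  set D2 := ∏ p ∈ P2, p with hD2
  have hD1A : D1 ∣ A := by
    apply Finset.prod_primes_dvd
    · intro p hp; exact (hP1p p hp).prime
    · intro p hp
      apply hAd
      rw [mem_Icc]
      exact ⟨(hP1p p hp).one_lt.le, (mem_filter.1 hp).2⟩
  have hD2N : D2 ∣ N := by
    apply Finset.prod_primes_dvd
    · intro p hp; exact (hP2p p hp).prime
    · intro p hp
      exact (Nat.mem_primeFactors.1 (mem_filter.1 hp).1).2.1.trans hMN
  have hAD2 : A.Coprime D2 := Nat.Coprime.prod_right hAP2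
  obtain ⟨k, hk⟩ := hAD2.mul_dvd_of_dvd_of_dvd hAN hD2N
  obtain ⟨k1, hk1⟩ := hD1A
  have hD10 : 0 < D1 := prod_pos fun p hp => (hP1p p hp).pos
  have hD20 : 0 < D2 := prod_pos fun p hp => (hP2p p hp).pos
  have hk10 : 0 < k1 := by
    rcases Nat.eq_zero_or_pos k1 with h | h
    · rw [h, mul_zero] at hk1; omega
    · exact h
  -- periodicity
  have hwA : ∀ n, w (n + A) = w n := by
    intro n
    have h1 := hw.mod hAd (n + A)
    have h2 := hw.mod hAd n
    rw [Nat.add_mod_right] at h1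
    rw [← h1, h2]
  set T0 : ℝ := ∑ n ∈ range A, w n with hT0
  have hT00 : 0 ≤ T0 := sum_nonneg fun n _ => hw0 n
  -- reduction
  have r1 : ∑ n ∈ range N, w n = (D2 * k : ℕ) * T0 := by
    have h1 : N = A * (D2 * k) := by rw [hk]; ring
    rw [h1, per_sum hwA]
  have r2 : ∑ n ∈ range N, w n * (((Icc 1 U).filter (fun h => (n + h).Coprime M)).card : ℝ) =
      k * ((∏ p ∈ P2, ((p : ℝ) - 1)) * ∑ i ∈ range A, w i * Sf P1 i U) := by
    have h1 : ∀ n ∈ range N, w n * (((Icc 1 U).filter (fun h => (n + h).Coprime M)).card : ℝ) = w n * Sf P n U := by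
      intro n _
      rw [hSf]
    rw [sum_congr rfl h1]
    rw [hk, per_sum (G := fun n => w n * Sf P n U) (T := A * D2)]
    · congr 1
      rw [sum_split, mul_sum]
      apply sum_congr rfl
      intro i _
      have h2 : ∀ j ∈ range D2, w (i + A * j) * Sf P (i + A * j) U =
          w i * (((HS P1 i U).filter (fun h => ∀ p ∈ P2, ¬ p ∣ i + A * j + h)).card : ℝ) := by
        intro j _
        rw [per_mul hwA]
        unfold Sf
        rw [← hun, HS_union, HS_add P1]
        intro p hp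
        exact (dvd_prod_of_mem (fun x : ℕ => x) hp).trans ⟨k1, hk1⟩
      rw [sum_congr rfl h2, ← mul_sum, fullavg P2 (HS P1 i U) i A hP2p hAP2]
      unfold Sf
      ring
    · intro n
      have h2 : w (n + A * D2) = w n := per_mul hwA n D2
      have h3 : Sf P (n + A * D2) U = Sf P n U := by
        apply hSfper
        intro p hp
        rw [← hun, mem_union] at hp
        rcases hp with hp | hp
        · exact ((dvd_prod_of_mem (fun x : ℕ => x) hp).trans ⟨k1, hk1⟩).trans (Dvd.intro _ rfl)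
        · exact (dvd_prod_of_mem (fun x : ℕ => x) hp).trans (Dvd.intro_left _ rfl)
      show w (n + A * D2) * Sf P (n + A * D2) U = w n * Sf P n U
      rw [h2, h3]
  -- the tail
  set B := (range A).filter (fun n => Sf P1 n U < c * (U * V P1)) with hB
  have hBcard : (B.card : ℝ) * (2 * (Q : ℝ) ^ 2) ≤ A := by
    refine (mul_le_mul_of_nonneg_left hQexp3 (Nat.cast_nonneg _)).trans ?_
    apply hbad P1 A _ ⟨k1, hk1⟩ hA0
    intro p hp
    refine ⟨hP1p p hp, le_trans ?_ hlog⟩
    apply Real.log_le_log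
    · exact_mod_cast (hP1p p hp).pos
    · exact_mod_cast (mem_filter.1 hp).2
  have hA0r : (0 : ℝ) < A := by exact_mod_cast hA0
  have hBsum : ∑ n ∈ B, w n ≤ T0 / 2 := by
    have h1 : ∀ n ∈ B, w n ≤ (Q : ℝ) ^ 2 * T0 / A := by
      intro n _
      rw [le_div_iff₀ hA0r, mul_comm]
      exact supb A Q hA0 hAd w hw0 hw n
    refine (sum_le_sum h1).trans ?_
    rw [sum_const, nsmul_eq_mul]
    have h2 : (B.card : ℝ) * ((Q : ℝ) ^ 2 * T0 / A) = ((B.card : ℝ) * (2 * (Q : ℝ) ^ 2)) * T0 / (2 * A) := by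
      field_simp
    rw [h2, div_le_div_iff₀ (by positivity) (by norm_num)]
    have h3 := mul_le_mul_of_nonneg_right hBcard hT00
    linarith
  have hV1 : 0 < V P1 := V_pos hP1p
  have hmain : c * (U * V P1) * (T0 / 2) ≤ ∑ i ∈ range A, w i * Sf P1 i U := by
    have h1 : ∑ n ∈ B, w n + ∑ n ∈ (range A).filter (fun n => ¬ Sf P1 n U < c * (U * V P1)), w n = T0 :=
      sum_filter_add_sum_filter_not _ _ _
    have h2 : T0 / 2 ≤ ∑ n ∈ (range A).filter (fun n => ¬ Sf P1 n U < c * (U * V P1)), w n := by linarith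
    calc c * (U * V P1) * (T0 / 2) ≤
        c * (U * V P1) * ∑ n ∈ (range A).filter (fun n => ¬ Sf P1 n U < c * (U * V P1)), w n :=
          mul_le_mul_of_nonneg_left h2 (by positivity)
      _ = ∑ n ∈ (range A).filter (fun n => ¬ Sf P1 n U < c * (U * V P1)), w n * (c * (U * V P1)) := by
          rw [mul_sum]
          exact sum_congr rfl fun n _ => mul_comm _ _
      _ ≤ ∑ n ∈ (range A).filter (fun n => ¬ Sf P1 n U < c * (U * V P1)), w n * Sf P1 n U := by
          apply sum_le_sum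
          intro n hn
          exact mul_le_mul_of_nonneg_left (not_lt.1 (mem_filter.1 hn).2) (hw0 n)
      _ ≤ _ := by
          apply sum_le_sum_of_subset_of_nonneg (filter_subset _ _)
          intro n _ _
          exact mul_nonneg (hw0 n) (Nat.cast_nonneg _)
  rw [r1, r2, ← V_tot hM]
  have hVP : V P = V P1 * V P2 := by
    rw [← hun]
    unfold V
    rw [prod_union hd12]
  have hV2 : (D2 : ℝ) * V P2 = ∏ p ∈ P2, ((p : ℝ) - 1) := by
    rw [hD2]
    unfold V
    push_cast
    rw [← prod_mul_distrib]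
    apply prod_congr rfl
    intro p hp
    have : (p : ℝ) ≠ 0 := by exact_mod_cast (hP2p p hp).ne_zero
    field_simp
  have hprod0 : 0 ≤ ∏ p ∈ P2, ((p : ℝ) - 1) := by
    apply prod_nonneg
    intro p hp
    have : (2 : ℝ) ≤ p := by exact_mod_cast (hP2p p hp).two_le
    linarith
  rw [show M.primeFactors = P from rfl, hVP]
  push_cast
  have e : c / 2 * U * (V P1 * V P2) * (D2 * k * T0) = k * ((∏ p ∈ P2, ((p : ℝ) - 1)) * (c * (U * V P1) * (T0 / 2))) := by
    rw [← hV2]; ring
  rw [e]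
  apply mul_le_mul_of_nonneg_left _ (Nat.cast_nonneg _)
  exact mul_le_mul_of_nonneg_left hmain hprod0

end Pool.Agent.Y829
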