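import Pool.Agent.H50.G.S.W52.DC.PT
import Pool.Agent.H50.G.S.W120.DC.LN
import Pool.Agent.H50.G.S.W586.DC.ER
import Pool.Agent.H50.G.S.W366.DC.SFX
import Pool.Agent.H50.G.S.W505.DC.MI
import Pool.Agent.H50.G.S.W505.DC.MT
import Pool.Agent.H50.G.S.W378.DC.MP
import Pool.Agent.H50.G.S.TH882.FL
/-! The linear sieve lower bound for intervals, part 1. -/

set_option autoImplicit false

namespace Pool.Agent.Y829

open Finset
open Pool.Agent.W23.DC

/-- product of `1 - 1/p` -/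
noncomputable def V (P : Finset ℕ) : ℝ := ∏ p ∈ P, (1 - 1 / (p : ℝ))

lemma fac_pos {p : ℕ} (hp : p.Prime) : 0 < 1 - 1 / (p : ℝ) := by
  have h2 : (2 : ℝ) ≤ p := by exact_mod_cast hp.two_le
  have : 1 / (p : ℝ) ≤ 1 / 2 := one_div_le_one_div_of_le (by norm_num) h2
  linarith

lemma fac_le_one {p : ℕ} : 1 - 1 / (p : ℝ) ≤ 1 := by
  have : 0 ≤ 1 / (p : ℝ) := by positivity
  linarith

lemma V_pos {P : Finset ℕ} (hP : ∀ p ∈ P, p.Prime) : 0 < V P := prod_pos fun p hp => fac_pos (hP p hp)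

lemma V_le_one {P : Finset ℕ} (hP : ∀ p ∈ P, p.Prime) : V P ≤ 1 :=
  prod_le_one (fun p hp => (fac_pos (hP p hp)).le) fun _ _ => fac_le_one

lemma cnt (m a N : ℕ) (hm : 0 < m) :
    |(((Ioc a (a + N)).filter (fun n => m ∣ n)).card : ℝ) - (N : ℝ) / m| ≤ 1 := by
  have h1 : ((Ioc a (a + N)).filter (fun n => m ∣ n)).card + a / m = (a + N) / m := by
    have h2 := Nat.Ioc_filter_dvd_card_eq_div (a + N) m
    have h3 := Nat.Ioc_filter_dvd_card_eq_div a m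
    have h4 : (Ioc 0 (a + N)).filter (fun n => m ∣ n) =
        (Ioc a (a + N)).filter (fun n => m ∣ n) ∪ (Ioc 0 a).filter (fun n => m ∣ n) := by
      ext x
      simp only [mem_filter, mem_union, mem_Ioc]
      constructor
      · rintro ⟨h5, h6⟩
        by_cases h : x ≤ a
        · exact Or.inr ⟨⟨h5.1, h⟩, h6⟩
        · exact Or.inl ⟨⟨by omega, h5.2⟩, h6⟩
      · rintro (⟨h5, h6⟩ | ⟨h5, h6⟩)
        · exact ⟨⟨by omega, h5.2⟩, h6⟩
        · exact ⟨⟨h5.1, by omega⟩, h6⟩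
    have h5 : Disjoint ((Ioc a (a + N)).filter (fun n => m ∣ n)) ((Ioc 0 a).filter (fun n => m ∣ n)) := by
      rw [disjoint_left]
      intro x hx hy
      rw [mem_filter, mem_Ioc] at hx hy
      omega
    rw [h4, card_union_of_disjoint h5, h3] at h2
    exact h2
  have hm' : (0 : ℝ) < m := by exact_mod_cast hm
  have e1 := Nat.div_add_mod a m
  have e2 := Nat.div_add_mod (a + N) m
  have l1 := Nat.mod_lt a hm
  have l2 := Nat.mod_lt (a + N) hm
  set q1 := a / m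
  set q2 := (a + N) / m
  set r1 := a % m
  set r2 := (a + N) % m
  have h1' : (((Ioc a (a + N)).filter (fun n => m ∣ n)).card : ℝ) = q2 - q1 := by
    rw [eq_sub_iff_add_eq]; exact_mod_cast h1
  have e1' : (m : ℝ) * q1 + r1 = a := by exact_mod_cast e1
  have e2' : (m : ℝ) * q2 + r2 = a + N := by exact_mod_cast e2
  have l1' : (r1 : ℝ) < m := by exact_mod_cast l1
  have l2' : (r2 : ℝ) < m := by exact_mod_cast l2
  have p1 : (0 : ℝ) ≤ r1 := Nat.cast_nonneg _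
  have p2 : (0 : ℝ) ≤ r2 := Nat.cast_nonneg _
  rw [h1']
  have h6 : (q2 : ℝ) - q1 - N / m = (r1 - r2) / m := by
    field_simp
    linarith
  rw [h6, abs_div, abs_of_pos hm', div_le_one hm', abs_le]
  constructor <;> linarith

/-- the small primes -/
noncomputable def Ps (N z0 : ℕ) (e1 : ℝ) : Finset ℕ := by
  classical exact (Icc 1 N).filter (fun p => p.Prime ∧ z0 < p ∧ tt N p < e1)

lemma mem_Ps {N z0 p : ℕ} {e1 : ℝ} : p ∈ Ps N z0 e1 ↔ (1 ≤ p ∧ p ≤ N) ∧ p.Prime ∧ z0 < p ∧ tt N p < e1 := by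
  unfold Ps
  rw [mem_filter, mem_Icc]

lemma mem_pr {N p : ℕ} {u v : ℝ} : p ∈ pr N u v ↔ (1 ≤ p ∧ p ≤ N) ∧ p.Prime ∧ u ≤ tt N p ∧ tt N p < v := by
  unfold pr
  rw [mem_filter, mem_Icc]

/-- Counting with the fundamental lemma. -/
theorem count_e : ∃ C0 : ℕ, 1 ≤ C0 ∧ ∀ (b J z0 N n0 e : ℕ) (e1 : ℝ), C0 ≤ b → C0 ≤ z0 → 0 < e →
    (∀ p ∈ Ps N z0 e1, p ≤ 2 ^ 2 ^ J) → (∀ p ∈ Ps N z0 e1, ¬ p ∣ e) →
    |((((Ioc n0 (n0 + N)).filter (fun n => ∀ p ∈ Ps N z0 e1, ¬ p ∣ n)).filter (fun n => e ∣ n)).card : ℝ) -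
      N * V (Ps N z0 e1) * (1 / (e : ℝ))| ≤
      (1 / 2 : ℝ) ^ b * (N * V (Ps N z0 e1) * (1 / (e : ℝ))) +
        ((J : ℝ) + 2) * (((2 ^ 2 ^ J : ℕ) : ℝ) ^ (C0 * b)) ^ 2 := by
  classical
  obtain ⟨C0, hC0, h⟩ := Pool.Agent.TH882.FL.fl1 1
  refine ⟨C0, hC0, ?_⟩
  intro b J z0 N n0 e e1 hb hz he hJ hne
  set P := Ps N z0 e1 with hP
  have hpp : ∀ p ∈ P, p.Prime := fun p hp => (mem_Ps.1 hp).2.1
  have h1 := h b J z0 P (fun _ => {0}) hb hz (fun p hp => ⟨hpp p hp, (mem_Ps.1 hp).2.2.1, hJ p hp⟩)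
    (fun p _ => by simp) ((Ioc n0 (n0 + N)).filter (fun n => e ∣ n)) ((N : ℝ) / e) (by positivity) ?_
  · have e1' : ∏ p ∈ P, (1 - ((({0} : Finset ℕ).card : ℕ) : ℝ) / (p : ℝ)) = V P := by
      unfold V
      apply prod_congr rfl
      intro p _
      simp
    rw [e1'] at h1
    have e2 : ((Ioc n0 (n0 + N)).filter (fun n => e ∣ n)).filter (fun n => ∀ p ∈ P, n % p ∉ ({0} : Finset ℕ)) =
        ((Ioc n0 (n0 + N)).filter (fun n => ∀ p ∈ P, ¬ p ∣ n)).filter (fun n => e ∣ n) := by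
      ext x
      simp only [mem_filter, mem_singleton]
      constructor
      · rintro ⟨⟨h3, h4⟩, h5⟩
        exact ⟨⟨h3, fun p hp h6 => h5 p hp (Nat.mod_eq_zero_of_dvd h6)⟩, h4⟩
      · rintro ⟨⟨h3, h5⟩, h4⟩
        exact ⟨⟨h3, h4⟩, fun p hp h6 => h5 p hp (Nat.dvd_of_mod_eq_zero h6)⟩
    rw [e2] at h1
    have e3 : (N : ℝ) / e * V P = N * V P * (1 / (e : ℝ)) := by ring
    rw [e3] at h1
    exact h1
  · intro T hT c hc
    have e4 : ((Ioc n0 (n0 + N)).filter (fun n => e ∣ n)).filter (fun n => ∀ p ∈ T, n % p = c p) =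
        (Ioc n0 (n0 + N)).filter (fun n => (e * ∏ p ∈ T, p) ∣ n) := by
      ext x
      simp only [mem_filter]
      have hcop : Nat.Coprime e (∏ p ∈ T, p) := by
        apply Nat.Coprime.prod_right
        intro p hp
        exact ((Nat.Prime.coprime_iff_not_dvd (hpp p (hT hp))).2 (hne p (hT hp))).symm
      constructor
      · rintro ⟨⟨h3, h4⟩, h5⟩
        refine ⟨h3, hcop.mul_dvd_of_dvd_of_dvd h4 ?_⟩
        apply Finset.prod_primes_dvd
        · intro p hp; exact (hpp p (hT hp)).prime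
        · intro p hp
          apply Nat.dvd_of_mod_eq_zero
          rw [h5 p hp]
          have := hc p hp
          simpa using this
      · rintro ⟨h3, h4⟩
        refine ⟨⟨h3, (Dvd.intro _ rfl).trans h4⟩, fun p hp => ?_⟩
        have h6 : c p = 0 := by have := hc p hp; simpa using this
        rw [h6]
        apply Nat.mod_eq_zero_of_dvd
        exact ((dvd_prod_of_mem _ hp).trans (Dvd.intro_left _ rfl)).trans h4
    rw [e4]
    have hpos : 0 < e * ∏ p ∈ T, p := Nat.mul_pos he (prod_pos fun p hp => (hpp p (hT hp)).pos)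
    have h7 := cnt (e * ∏ p ∈ T, p) n0 N hpos
    have e5 : (N : ℝ) / ((e * ∏ p ∈ T, p : ℕ) : ℝ) = (N : ℝ) / e / ∏ p ∈ T, (p : ℝ) := by
      push_cast
      rw [div_div]
    rw [e5] at h7
    exact h7

end Pool.Agent.Y829
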