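import Pool.Agent.H50.G.S.Y829.LS1
/-! The linear sieve lower bound for intervals, part 2: the inequality with error terms. -/

set_option autoImplicit false

namespace Pool.Agent.Y829

open Finset
open Pool.Agent.W23.DC

open Classical in
/-- unsifted numbers of the interval -/
noncomputable def AA (N z0 n0 : ℕ) (e1 : ℝ) : Finset ℕ :=
  (Ioc n0 (n0 + N)).filter (fun n => ∀ p ∈ Ps N z0 e1, ¬ p ∣ n)

open Classical in
/-- multiples of `e` among the unsifted numbers -/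
noncomputable def GG (N z0 n0 : ℕ) (e1 : ℝ) (e : ℕ) : ℝ :=
  (((AA N z0 n0 e1).filter (fun n => e ∣ n)).card : ℝ)

lemma siz {N : ℕ} (hN : 2 ≤ N) (a b : ℝ) : Siz (pr N a b) (tt N) := by
  have hN1 : (1 : ℝ) < N := by exact_mod_cast (by omega : 1 < N)
  have hL : 0 < Real.log N := Real.log_pos hN1
  refine ⟨fun p hp => (mem_pr.1 hp).2.1, ?_, ?_⟩
  · intro p hp
    have h1 : (1 : ℝ) < p := by exact_mod_cast (mem_pr.1 hp).2.1.one_lt
    exact div_pos (Real.log_pos h1) hL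
  · intro p hp q hq
    have hp0 : (0 : ℝ) < p := by exact_mod_cast (mem_pr.1 hp).2.1.pos
    have hq0 : (0 : ℝ) < q := by exact_mod_cast (mem_pr.1 hq).2.1.pos
    unfold tt
    rw [div_lt_div_iff_of_pos_right hL, Real.log_lt_log_iff hp0 hq0]
    exact_mod_cast Iff.rfl

open Classical in
theorem lower (N z0 n0 K : ℕ) (e1 tau zeta : ℝ) (hN : 2 ≤ N) :
    LL (pr N e1 zeta) (tt N) (GG N z0 n0 e1) K false tau zeta 1 ≤
      (((AA N z0 n0 e1).filter (fun n => ∀ p ∈ pr N e1 zeta, ¬ p ∣ n)).card : ℝ) := by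
  set P := pr N e1 zeta with hP
  set A := AA N z0 n0 e1 with hA
  have hs : Siz P (tt N) := siz hN e1 zeta
  have e1' : GG N z0 n0 e1 = fun e => ∑ n ∈ A, (fun (n e : ℕ) => if e ∣ n then (1 : ℝ) else 0) n e := by
    funext e
    unfold GG
    rw [← hA, card_filter]
    push_cast
    rfl
  rw [e1', Pool.Agent.W120.DC.LN.1 P (tt N) A (fun (n e : ℕ) => if e ∣ n then (1 : ℝ) else 0) K false tau zeta 1]
  rw [card_filter]
  push_cast
  apply sum_le_sum
  intro n _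
  have h := (Pool.Agent.W52.DC.PT P (tt N) hs n K tau zeta 1 (by
    intro p hp _ hd
    exact (hs.pr p hp).one_lt.ne' (Nat.dvd_one.1 hd))).2
  refine le_trans (le_of_eq ?_) (h.trans ?_)
  · congr 1
  · by_cases h1 : ∀ p ∈ P, ¬ p ∣ n
    · rw [if_pos h1]
      split_ifs <;> norm_num
    · rw [if_neg h1, if_neg]
      rintro ⟨_, h2⟩
      exact h1 fun p hp => h2 p hp (mem_pr.1 hp).2.2.2

lemma mem_EE {N : ℕ} (hN : 2 ≤ N) {e1 tau zeta : ℝ} {e : ℕ} (he : e ∈ EE (pr N e1 zeta) (tt N) tau zeta)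
    (htau : 0 ≤ tau) :
    ∃ s ⊆ pr N e1 zeta, e = ∏ p ∈ s, p ∧ 1 ≤ e ∧ (e : ℝ) ≤ (N : ℝ) ^ tau := by
  classical
  have hN1 : (1 : ℝ) < N := by exact_mod_cast (by omega : 1 < N)
  have hN0 : (0 : ℝ) < N := by linarith
  have hL : 0 < Real.log N := Real.log_pos hN1
  unfold EE at he
  rw [mem_filter, mem_image] at he
  obtain ⟨⟨s, hs, hse⟩, hW⟩ := he
  rw [mem_powerset] at hs
  have hs' : s ⊆ pr N e1 zeta := hs.trans (filter_subset _ _)
  have hpr : ∀ p ∈ s, p.Prime := fun p hp => (mem_pr.1 (hs' hp)).2.1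
  have hepos : 0 < e := by rw [← hse]; exact prod_pos fun p hp => (hpr p hp).pos
  refine ⟨s, hs', hse.symm, hepos, ?_⟩
  obtain ⟨u, v, huv, hu, hv⟩ := hW tau 0 htau le_rfl (add_zero _)
  have hu0 : u ≠ 0 := by rintro rfl; rw [zero_mul] at huv; omega
  have hv0 : v ≠ 0 := by rintro rfl; rw [mul_zero] at huv; omega
  have hpf : e.primeFactors = s := by rw [← hse]; exact Nat.primeFactors_prod hpr
  have hun : e.primeFactors = u.primeFactors ∪ v.primeFactors := by rw [← huv]; exact Nat.primeFactors_mul hu0 hv0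
  have htn : ∀ p ∈ s, 0 ≤ tt N p := fun p hp => ((siz hN e1 zeta).pos p (hs' hp)).le
  have h1 : ∑ p ∈ s, tt N p ≤ tau := by
    rw [← hpf, hun]
    have h2 := sum_union_inter (s₁ := u.primeFactors) (s₂ := v.primeFactors) (f := tt N)
    have h3 : 0 ≤ ∑ p ∈ u.primeFactors ∩ v.primeFactors, tt N p := by
      apply sum_nonneg
      intro p hp
      apply htn
      rw [← hpf, hun]
      exact mem_union_left _ (mem_inter.1 hp).1
    unfold sz at hu hv
    linarith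
  have h4 : Real.log e = Real.log N * ∑ p ∈ s, tt N p := by
    rw [← hse]
    push_cast
    rw [Real.log_prod (fun p hp => by exact_mod_cast (hpr p hp).ne_zero), mul_sum]
    apply sum_congr rfl
    intro p _
    unfold tt
    field_simp
  have he0 : (0 : ℝ) < e := by exact_mod_cast hepos
  rw [← Real.log_le_log_iff he0 (Real.rpow_pos_of_pos hN0 _), Real.log_rpow hN0, h4, mul_comm]
  exact mul_le_mul_of_nonneg_right h1 hL.le

open Classical in
theorem sum_EE {N : ℕ} (hN : 2 ≤ N) {e1 tau zeta : ℝ} (htau : 0 ≤ tau) :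
    ∑ e ∈ EE (pr N e1 zeta) (tt N) tau zeta, 1 / (e : ℝ) ≤
      Real.exp (∑ p ∈ pr N e1 zeta, 1 / (p : ℝ)) ∧
    ((EE (pr N e1 zeta) (tt N) tau zeta).card : ℝ) ≤ (N : ℝ) ^ tau := by
  have hN1 : (1 : ℝ) < N := by exact_mod_cast (by omega : 1 < N)
  have hN0 : (0 : ℝ) < N := by linarith
  constructor
  · have h1 : EE (pr N e1 zeta) (tt N) tau zeta ⊆ (pr N e1 zeta).powerset.image (fun s => ∏ p ∈ s, p) := by
      intro e he
      obtain ⟨s, hs, hse, _⟩ := mem_EE hN he htau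
      rw [mem_image]
      exact ⟨s, mem_powerset.2 hs, hse.symm⟩
    refine (sum_le_sum_of_subset_of_nonneg h1 (fun _ _ _ => by positivity)).trans ?_
    rw [sum_image]
    · have h2 : ∀ s ∈ (pr N e1 zeta).powerset, 1 / ((∏ p ∈ s, p : ℕ) : ℝ) = ∏ p ∈ s, (1 / (p : ℝ)) := by
        intro s _
        push_cast
        rw [one_div, ← prod_inv_distrib]
        simp only [one_div]
      rw [sum_congr rfl h2, ← prod_one_add, Real.exp_sum]
      apply prod_le_prod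
      · intro p _; positivity
      · intro p _
        rw [add_comm]
        exact Real.add_one_le_exp _
    · intro s hs s' hs' h
      rw [mem_coe, mem_powerset] at hs hs'
      have h2 := Nat.primeFactors_prod (fun p hp => (mem_pr.1 (hs hp)).2.1)
      have h3 := Nat.primeFactors_prod (fun p hp => (mem_pr.1 (hs' hp)).2.1)
      rw [← h2, ← h3]
      exact congrArg Nat.primeFactors h
  · have h1 : EE (pr N e1 zeta) (tt N) tau zeta ⊆ Icc 1 ⌊(N : ℝ) ^ tau⌋₊ := by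
      intro e he
      obtain ⟨s, _, _, h3, h4⟩ := mem_EE hN he htau
      rw [mem_Icc]
      exact ⟨h3, Nat.le_floor h4⟩
    have h2 := card_le_card h1
    rw [Nat.card_Icc, Nat.add_sub_cancel] at h2
    calc ((EE (pr N e1 zeta) (tt N) tau zeta).card : ℝ) ≤ (⌊(N : ℝ) ^ tau⌋₊ : ℝ) := by exact_mod_cast h2
      _ ≤ _ := Nat.floor_le (by positivity)

/-- the linear sieve with the error terms -/
theorem main_ineq : ∃ C0 : ℕ, 1 ≤ C0 ∧ ∀ (b J z0 N n0 K : ℕ) (e1 tau zeta : ℝ), C0 ≤ b → C0 ≤ z0 → 2 ≤ N →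
    0 ≤ tau → 2 * zeta ≤ tau → (∀ p ∈ Ps N z0 e1, p ≤ 2 ^ 2 ^ J) →
    N * V (Ps N z0 e1) * (MM (pr N e1 zeta) (tt N) (fun p => 1 / (p : ℝ)) K false tau zeta) -
      (1 / 2 : ℝ) ^ b * (N * V (Ps N z0 e1)) * Real.exp (∑ p ∈ pr N e1 zeta, 1 / (p : ℝ)) -
      (N : ℝ) ^ tau * (((J : ℝ) + 2) * (((2 ^ 2 ^ J : ℕ) : ℝ) ^ (C0 * b)) ^ 2) ≤
      (((AA N z0 n0 e1).filter (fun n => ∀ p ∈ pr N e1 zeta, ¬ p ∣ n)).card : ℝ) := by
  classical
  obtain ⟨C0, hC0, hc⟩ := count_e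
  refine ⟨C0, hC0, ?_⟩
  intro b J z0 N n0 K e1 tau zeta hb hz hN htau hzt hJ
  have hs : Siz (pr N e1 zeta) (tt N) := siz hN e1 zeta
  set X : ℝ := N * V (Ps N z0 e1) with hX
  set E0 : ℝ := ((J : ℝ) + 2) * (((2 ^ 2 ^ J : ℕ) : ℝ) ^ (C0 * b)) ^ 2 with hE0
  set r : ℕ → ℝ := fun e => GG N z0 n0 e1 e - X * (1 / (e : ℝ)) with hr
  have hG : GG N z0 n0 e1 = fun e => X * (fun e : ℕ => 1 / (e : ℝ)) e + r e := by
    funext e
    simp only [hr]
    ring
  have h1 := lower N z0 n0 K e1 tau zeta hN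
  rw [hG, Pool.Agent.W120.DC.LN.2.1 (pr N e1 zeta) (tt N) X (fun e : ℕ => 1 / (e : ℝ)) r K false tau zeta 1,
    Pool.Agent.W120.DC.LN.2.2 (pr N e1 zeta) (tt N) hs (fun p => 1 / (p : ℝ)) (fun e : ℕ => 1 / (e : ℝ)) (by
      intro d p _ _
      push_cast
      rw [one_div_mul_one_div]) K false tau zeta 1 (by
      intro p hp _ hd
      exact (hs.pr p hp).one_lt.ne' (Nat.dvd_one.1 hd))] at h1
  have h2 := Pool.Agent.W586.DC.ER (pr N e1 zeta) (tt N) hs r K false tau zeta 1 htau (fun _ => hzt)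
  have hV0 : 0 < V (Ps N z0 e1) := V_pos fun p hp => (mem_Ps.1 hp).2.1
  have hX0 : 0 ≤ X := by positivity
  have hE00 : 0 ≤ E0 := by positivity
  have h3 : ∑ e ∈ EE (pr N e1 zeta) (tt N) tau zeta, |r (1 * e)| ≤
      ∑ e ∈ EE (pr N e1 zeta) (tt N) tau zeta, ((1 / 2 : ℝ) ^ b * X * (1 / (e : ℝ)) + E0) := by
    apply sum_le_sum
    intro e he
    obtain ⟨s, hsub, hse, he1, _⟩ := mem_EE hN he htau
    rw [one_mul]
    have h4 := hc b J z0 N n0 e e1 hb hz he1 hJ (by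
      intro p hp hd
      have hpp := (mem_Ps.1 hp).2.1
      rw [hse] at hd
      obtain ⟨q, hq, hpq⟩ := (Prime.dvd_finset_prod_iff hpp.prime _).1 hd
      have hqq := (mem_pr.1 (hsub hq)).2.1
      rw [Nat.prime_dvd_prime_iff_eq hpp hqq] at hpq
      have h5 := (mem_pr.1 (hsub hq)).2.2.1
      have h6 := (mem_Ps.1 hp).2.2.2
      rw [hpq] at h6
      linarith)
    have h7 : r e = ((((Ioc n0 (n0 + N)).filter (fun n => ∀ p ∈ Ps N z0 e1, ¬ p ∣ n)).filter
        (fun n => e ∣ n)).card : ℝ) - N * V (Ps N z0 e1) * (1 / (e : ℝ)) := by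
      simp only [hr, hX, GG, AA]
    rw [h7]
    refine h4.trans (le_of_eq ?_)
    rw [hX, hE0]
    ring
  rw [sum_add_distrib, ← mul_sum, sum_const, nsmul_eq_mul] at h3
  obtain ⟨h8, h9⟩ := sum_EE (e1 := e1) (zeta := zeta) hN htau
  have h10 : (1 / 2 : ℝ) ^ b * X * ∑ e ∈ EE (pr N e1 zeta) (tt N) tau zeta, 1 / (e : ℝ) ≤
      (1 / 2 : ℝ) ^ b * X * Real.exp (∑ p ∈ pr N e1 zeta, 1 / (p : ℝ)) :=
    mul_le_mul_of_nonneg_left h8 (by positivity)
  have h11 := mul_le_mul_of_nonneg_right h9 hE00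
  have h12 := (abs_le.1 h2).1
  have h13 : 1 / ((1 : ℕ) : ℝ) = 1 := by norm_num
  rw [h13, one_mul] at h1
  linarith

end Pool.Agent.Y829
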