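import Pool.Agent.H50.G.S.Y829.LS2
/-! The linear sieve lower bound for intervals, part 3: the theorem. -/

set_option autoImplicit false

namespace Pool.Agent.Y829

open Finset Filter Topology
open Pool.Agent.W23.DC

lemma V_mono {P Q : Finset ℕ} (hPQ : P ⊆ Q) (hQ : ∀ p ∈ Q, p.Prime) : V Q ≤ V P := by
  unfold V
  rw [← prod_sdiff hPQ]
  have h1 : ∏ p ∈ Q \ P, (1 - 1 / (p : ℝ)) ≤ 1 :=
    prod_le_one (fun p hp => (fac_pos (hQ p (mem_sdiff.1 hp).1)).le) fun _ _ => fac_le_one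
  have h2 : 0 ≤ ∏ p ∈ P, (1 - 1 / (p : ℝ)) := prod_nonneg fun p hp => (fac_pos (hQ p (hPQ hp))).le
  calc (∏ p ∈ Q \ P, (1 - 1 / (p : ℝ))) * ∏ p ∈ P, (1 - 1 / (p : ℝ)) ≤ 1 * ∏ p ∈ P, (1 - 1 / (p : ℝ)) :=
      mul_le_mul_of_nonneg_right h1 h2
    _ = _ := one_mul _

lemma prod_tele (y : ℕ) (hy : 1 ≤ y) : ∏ k ∈ Ioc 1 y, (1 - 1 / (k : ℝ)) = 1 / y := by
  induction y, hy using Nat.le_induction with
  | base => simp
  | succ n hn ih =>
    rw [Finset.prod_Ioc_succ_top hn, ih]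
    have : (n : ℝ) ≠ 0 := by positivity
    have : (n : ℝ) + 1 ≠ 0 := by positivity
    push_cast
    field_simp
    ring

lemma V_ge {P : Finset ℕ} (hP : ∀ p ∈ P, p.Prime) {y : ℕ} (hy : 1 ≤ y) (hPy : ∀ p ∈ P, p ≤ y) :
    1 / (y : ℝ) ≤ V P := by
  rw [← prod_tele y hy]
  unfold V
  have hsub : P ⊆ Ioc 1 y := fun p hp => mem_Ioc.2 ⟨(hP p hp).one_lt, hPy p hp⟩
  rw [← prod_sdiff hsub]
  have h0 : ∀ k ∈ Ioc 1 y, 0 ≤ 1 - 1 / (k : ℝ) := by
    intro k hk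
    have h1 : (1 : ℝ) ≤ k := by exact_mod_cast (mem_Ioc.1 hk).1.le
    have : 1 / (k : ℝ) ≤ 1 := by rw [div_le_one (by linarith)]; exact h1
    linarith
  have h1 : ∏ k ∈ Ioc 1 y \ P, (1 - 1 / (k : ℝ)) ≤ 1 :=
    prod_le_one (fun p hp => h0 p (mem_sdiff.1 hp).1) fun _ _ => fac_le_one
  have h2 : 0 ≤ ∏ p ∈ P, (1 - 1 / (p : ℝ)) := prod_nonneg fun p hp => (fac_pos (hP p hp)).le
  calc (∏ p ∈ Ioc 1 y \ P, (1 - 1 / (p : ℝ))) * ∏ p ∈ P, (1 - 1 / (p : ℝ)) ≤ 1 * ∏ p ∈ P, (1 - 1 / (p : ℝ)) :=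
      mul_le_mul_of_nonneg_right h1 h2
    _ = _ := one_mul _

lemma tt_lt {N p : ℕ} (hN : 2 ≤ N) (hp : 0 < p) (c : ℝ) : tt N p < c ↔ (p : ℝ) < (N : ℝ) ^ c := by
  have hN1 : (1 : ℝ) < N := by exact_mod_cast (by omega : 1 < N)
  have hL : 0 < Real.log N := Real.log_pos hN1
  have hp0 : (0 : ℝ) < p := by exact_mod_cast hp
  unfold tt
  rw [div_lt_iff₀ hL, Real.rpow_def_of_pos (by linarith), ← Real.log_lt_iff_lt_exp hp0, mul_comm]

/-- Mertens for the weights `1/p` -/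
theorem mer (e1 eta : ℝ) (he1 : 0 < e1) (heta : 0 < eta) : ∃ N₀ : ℕ, ∀ N : ℕ, N₀ ≤ N → ∀ a b : ℝ,
    e1 ≤ a → a ≤ b → b ≤ 1 → |∑ p ∈ pr N a b, 1 / (p : ℝ) - Real.log (b / a)| ≤ eta := by
  obtain ⟨N1, h1⟩ := Pool.Agent.W378.DC.MP e1 (eta / 2) he1 (half_pos heta)
  have ht : Tendsto (fun N : ℕ => (N : ℝ) ^ e1) atTop atTop :=
    (tendsto_rpow_atTop he1).comp tendsto_natCast_atTop_atTop
  obtain ⟨N2, h2⟩ := (ht.eventually_ge_atTop (2 / eta + 2)).exists_forall_of_atTop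
  refine ⟨max 2 (max N1 N2), ?_⟩
  intro N hN a b ha hab hb
  have hN2 : 2 ≤ N := (le_max_left _ _).trans hN
  have hN1 : (1 : ℝ) < N := by exact_mod_cast (by omega : 1 < N)
  have h3 := h1 N ((le_max_left _ _).trans ((le_max_right _ _).trans hN)) a b ha hab hb
  have h4 := h2 N ((le_max_right _ _).trans ((le_max_right _ _).trans hN))
  have hNa : (N : ℝ) ^ e1 ≤ (N : ℝ) ^ a := Real.rpow_le_rpow_of_exponent_le hN1.le ha
  have hNab : (N : ℝ) ^ a ≤ (N : ℝ) ^ b := Real.rpow_le_rpow_of_exponent_le hN1.le hab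
  have h2e : 0 < 2 / eta := by positivity
  set A := ⌈(N : ℝ) ^ a⌉₊ - 1 with hA
  set B := ⌈(N : ℝ) ^ b⌉₊ - 1 with hB
  have hceil : (N : ℝ) ^ a ≤ ⌈(N : ℝ) ^ a⌉₊ := Nat.le_ceil _
  have hc1 : 3 ≤ ⌈(N : ℝ) ^ a⌉₊ := by
    have : (2 : ℝ) < ⌈(N : ℝ) ^ a⌉₊ := by linarith
    exact_mod_cast this
  have hA1 : 1 ≤ A := by omega
  have hAB : A ≤ B := by
    have : ⌈(N : ℝ) ^ a⌉₊ ≤ ⌈(N : ℝ) ^ b⌉₊ := Nat.ceil_mono hNab
    omega
  have hAr : 2 / eta ≤ (A : ℝ) := by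
    have : (A : ℝ) = ⌈(N : ℝ) ^ a⌉₊ - 1 := by
      rw [hA, Nat.cast_sub (by omega)]; simp
    rw [this]; linarith
  have h5 := Pool.Agent.W378.DC.TMP.shift A hA1 B hAB
  have h6 : ∑ p ∈ pr N a b, (1 / ((p : ℝ) - 1) - 1 / (p : ℝ)) ≤ 1 / A - 1 / B := by
    rw [← h5, Pool.Agent.W378.DC.TMP.pr_eq hN2 hb]
    apply sum_le_sum_of_subset_of_nonneg (filter_subset _ _)
    intro i hi _
    have h7 : (1 : ℝ) < i := by
      have := (mem_Ioc.1 hi).1
      exact_mod_cast (by omega : 1 < i)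
    have h8 : 1 / (i : ℝ) ≤ 1 / ((i : ℝ) - 1) := one_div_le_one_div_of_le (by linarith) (by linarith)
    linarith
  have h7 : 0 ≤ ∑ p ∈ pr N a b, (1 / ((p : ℝ) - 1) - 1 / (p : ℝ)) := by
    apply sum_nonneg
    intro i hi
    have h7 : (1 : ℝ) < i := by exact_mod_cast (mem_pr.1 hi).2.1.one_lt
    have h8 : 1 / (i : ℝ) ≤ 1 / ((i : ℝ) - 1) := one_div_le_one_div_of_le (by linarith) (by linarith)
    linarith
  have h8 : 1 / (A : ℝ) ≤ eta / 2 := by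
    rw [div_le_iff₀ (by linarith)]
    have := mul_le_mul_of_nonneg_left hAr (half_pos heta).le
    have h9 : eta / 2 * (2 / eta) = 1 := by field_simp
    linarith
  have h9 : (0 : ℝ) ≤ 1 / B := by positivity
  rw [sum_sub_distrib] at h6 h7
  rw [abs_le] at h3 ⊢
  constructor <;> linarith

lemma exJ {N : ℕ} {e1 : ℝ} (hN : 2 ≤ N) (he : 0 < e1) (he2 : 2 * e1 ≤ 1) (h : 2 < (N : ℝ) ^ e1) :
    ∃ J : ℕ, (N : ℝ) ^ e1 ≤ ((2 ^ 2 ^ J : ℕ) : ℝ) ∧ ((2 ^ 2 ^ J : ℕ) : ℝ) ≤ (N : ℝ) ^ (2 * e1) ∧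
      (J : ℝ) + 2 ≤ 4 * Real.log N := by
  classical
  have hN1 : (1 : ℝ) < N := by exact_mod_cast (by omega : 1 < N)
  have hN0 : (0 : ℝ) < N := by linarith
  have hex : ∃ J : ℕ, (N : ℝ) ^ e1 ≤ ((2 ^ 2 ^ J : ℕ) : ℝ) := by
    obtain ⟨k, hk⟩ := exists_nat_ge ((N : ℝ) ^ e1)
    refine ⟨k, hk.trans ?_⟩
    have h1 : k ≤ 2 ^ 2 ^ k := (Nat.lt_two_pow_self.le).trans (Nat.lt_two_pow_self.le)
    exact_mod_cast h1
  have hJ := Nat.find_spec hex
  have hmin := fun m => Nat.find_min hex (m := m)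
  set J := Nat.find hex
  have hJ0 : J ≠ 0 := by
    intro h0
    rw [h0] at hJ
    norm_num at hJ
    linarith
  obtain ⟨J', hJ'⟩ := Nat.exists_eq_succ_of_ne_zero hJ0
  have h1 := not_le.1 (hmin J' (by omega))
  have h2 : ((2 ^ 2 ^ J : ℕ) : ℝ) ≤ (N : ℝ) ^ (2 * e1) := by
    rw [hJ']
    have h3 : (2 ^ 2 ^ J'.succ : ℕ) = (2 ^ 2 ^ J') ^ 2 := by
      rw [← pow_mul, Nat.pow_succ]
    rw [h3]
    push_cast
    push_cast at h1
    calc ((2 : ℝ) ^ 2 ^ J') ^ 2 ≤ ((N : ℝ) ^ e1) ^ 2 := pow_le_pow_left₀ (by positivity) h1.le 2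
      _ = (N : ℝ) ^ (2 * e1) := by
        rw [← Real.rpow_natCast, ← Real.rpow_mul hN0.le]
        norm_num
        ring_nf
  refine ⟨J, hJ, h2, ?_⟩
  have h3 : ((2 ^ 2 ^ J : ℕ) : ℝ) ≤ N := by
    refine h2.trans ?_
    calc (N : ℝ) ^ (2 * e1) ≤ (N : ℝ) ^ (1 : ℝ) := Real.rpow_le_rpow_of_exponent_le hN1.le he2
      _ = N := Real.rpow_one _
  have h4 : (2 : ℝ) ^ J * Real.log 2 ≤ Real.log N := by
    have h5 := Real.log_le_log (by positivity) h3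
    push_cast at h5
    rw [Real.log_pow] at h5
    push_cast at h5
    exact h5
  have h5 : (1 : ℝ) / 2 ≤ Real.log 2 := by have := Real.log_two_gt_d9; linarith
  have h6 : (J : ℝ) + 2 ≤ 2 * 2 ^ J := by
    have h7 : J' + 1 ≤ 2 ^ J' := Nat.lt_two_pow_self
    have h8 : J + 2 ≤ 2 * 2 ^ J := by
      rw [hJ', Nat.pow_succ]
      omega
    exact_mod_cast h8
  have h9 : (0 : ℝ) < 2 ^ J := by positivity
  nlinarith

/-- **The linear sieve in intervals**, for all large primes. -/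
theorem ls (delta : ℝ) (h0 : 0 < delta) (h1 : delta ≤ 1 / 10) : ∃ (c : ℝ) (N0 z0 : ℕ), 0 < c ∧
    ∀ N n0 : ℕ, N0 ≤ N → c * (N * V (Ps N z0 ((1 / 2 : ℝ) - delta))) ≤
      (((Ioc n0 (n0 + N)).filter (fun n => ∀ p ∈ Ps N z0 ((1 / 2 : ℝ) - delta), ¬ p ∣ n)).card : ℝ) := by
  classical
  obtain ⟨A0, F, f, hSF⟩ := Pool.Agent.W366.DC.SFX
  obtain ⟨C0, hC0, hmain⟩ := main_ineq
  set zeta : ℝ := 1 / 2 - delta with hzeta
  set tau : ℝ := 1 - delta with htau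
  have hz0 : 0 < zeta := by rw [hzeta]; linarith
  have hz1 : zeta < 1 / 2 := by rw [hzeta]; linarith
  have ht0 : 0 < tau := by rw [htau]; linarith
  set s : ℝ := tau / zeta with hs
  have hs2 : 2 < s := by
    rw [hs, lt_div_iff₀ hz0, htau, hzeta]; linarith
  have hs4 : s ≤ 4 := by
    rw [hs, div_le_iff₀ hz0, htau, hzeta]; linarith
  set f0 : ℝ := f s with hf0
  have hf0pos : 0 < f0 := by
    rw [hf0, hSF.f4 s hs2.le hs4]
    exact div_pos (mul_pos hSF.pos (Real.log_pos (by linarith))) (by linarith)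
  set m1 : ℝ := f0 / (4 * zeta) with hm1
  have hm1pos : 0 < m1 := by positivity
  -- choice of j
  have T1 : Tendsto (fun j : ℕ => (1 / 2 : ℝ) ^ j) atTop (𝓝 0) :=
    tendsto_pow_atTop_nhds_zero_of_lt_one (by norm_num) (by norm_num)
  have T2 : Tendsto (fun j : ℕ => (j : ℝ) * (1 / 2 : ℝ) ^ j) atTop (𝓝 0) :=
    tendsto_self_mul_const_pow_of_lt_one (by norm_num) (by norm_num)
  have T3 : Tendsto (fun j : ℕ => 16 * (C0 : ℝ) * ((j : ℝ) * (1 / 2 : ℝ) ^ j)) atTop (𝓝 0) := by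
    have := T2.const_mul (16 * (C0 : ℝ))
    rwa [mul_zero] at this
  have T4 : Tendsto (fun j : ℕ => 6 * zeta * ((1 / 2 : ℝ) ^ j) ^ 2) atTop (𝓝 0) := by
    have := (T1.pow 2).const_mul (6 * zeta)
    simpa using this
  obtain ⟨j, hj1, hj2, hj3, hj4, hj5⟩ := ((T1.eventually_le_const hz0).and
    ((T1.eventually_le_const (show (0 : ℝ) < delta / 8 by positivity)).and
    ((T3.eventually_le_const (show (0 : ℝ) < delta / 4 by positivity)).and
    ((T4.eventually_le_const hm1pos).and (eventually_ge_atTop C0))))).exists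
  set e1 : ℝ := (1 / 2 : ℝ) ^ j with he1
  have he1pos : 0 < e1 := by positivity
  have he1le : e1 ≤ 1 := by linarith
  set b := 4 * j with hb
  have hbC : C0 ≤ b := by omega
  obtain ⟨eta, heta, hMT⟩ := Pool.Agent.W505.DC.MT Pool.Agent.W505.DC.MI A0 F f hSF e1 (e1 * f0 / (2 * zeta))
    (2 ^ j) he1pos he1le (by positivity)
  obtain ⟨N1, hmer⟩ := mer e1 (min eta 1) he1pos (lt_min heta one_pos)
  have ht : Tendsto (fun N : ℕ => (N : ℝ) ^ e1) atTop atTop :=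
    (tendsto_rpow_atTop he1pos).comp tendsto_natCast_atTop_atTop
  have hlogs : ∀ᶠ N : ℕ in atTop, 4 * Real.log N ≤ (m1 * e1 / 2) * (N : ℝ) ^ (5 * delta / 8) := by
    have h2 := (isLittleO_log_rpow_atTop (show (0 : ℝ) < 5 * delta / 8 by positivity)).bound
      (show (0 : ℝ) < m1 * e1 / 8 by positivity)
    have h3 := tendsto_natCast_atTop_atTop.eventually h2
    filter_upwards [h3, eventually_ge_atTop 1] with N hN hN1
    have hN1' : (1 : ℝ) ≤ N := by exact_mod_cast hN1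
    rw [Real.norm_of_nonneg (Real.log_nonneg hN1'), Real.norm_of_nonneg (by positivity)] at hN
    linarith
  obtain ⟨N2, hN2⟩ := (((ht.eventually_gt_atTop (C0 : ℝ)).and (ht.eventually_gt_atTop 2)).and hlogs).exists_forall_of_atTop
  refine ⟨m1 * e1, max 2 (max N1 N2), C0, by positivity, ?_⟩
  intro N n0 hN
  have hN2' : 2 ≤ N := (le_max_left _ _).trans hN
  have hN1' := (le_max_left _ _).trans ((le_max_right _ _).trans hN)
  obtain ⟨⟨hg1, hg2⟩, hg3⟩ := hN2 N ((le_max_right _ _).trans ((le_max_right _ _).trans hN))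
  have hNr : (1 : ℝ) < N := by exact_mod_cast (by omega : 1 < N)
  have hN0 : (0 : ℝ) < N := by linarith
  obtain ⟨J, hJ1, hJ2, hJ3⟩ := exJ hN2' he1pos (by linarith) hg2
  have hPsJ : ∀ p ∈ Ps N C0 e1, p ≤ 2 ^ 2 ^ J := by
    intro p hp
    have h2 := (mem_Ps.1 hp)
    have h3 := (tt_lt hN2' h2.2.1.pos e1).1 h2.2.2.2
    have h4 := h3.trans_le hJ1
    exact_mod_cast h4.le
  have key := hmain b J C0 N n0 (2 ^ j) e1 tau zeta hbC le_rfl hN2' ht0.le (by rw [htau, hzeta]; linarith) hPsJ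
  -- main term
  have hPprime : ∀ p ∈ pr N e1 zeta, p.Prime := fun p hp => (mem_pr.1 hp).2.1
  have hMer : Mer (pr N e1 zeta) (tt N) (fun p => 1 / (p : ℝ)) e1 zeta eta := by
    intro a b' ha hab hb'
    have h2 := hmer N hN1' a b' ha hab (by linarith)
    have h3 : (pr N e1 zeta).filter (fun p => a ≤ tt N p ∧ tt N p < b') = pr N a b' := by
      ext p
      rw [mem_filter, mem_pr, mem_pr]
      constructor
      · rintro ⟨⟨h4, h5, _, _⟩, h6, h7⟩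
        exact ⟨h4, h5, h6, h7⟩
      · rintro ⟨h4, h5, h6, h7⟩
        exact ⟨⟨h4, h5, by linarith, by linarith⟩, h6, h7⟩
    rw [h3]
    exact h2.trans (min_le_left _ _)
  have hMM := (hMT (pr N e1 zeta) (tt N) (fun p => 1 / (p : ℝ)) zeta (by linarith)
    (fun p _ => by positivity) (fun p hp => (mem_pr.1 hp).2.2.1) hMer (2 ^ j) le_rfl tau zeta (by
      push_cast
      have h2 : (2 : ℝ) ^ j * e1 = 1 := by
        rw [he1, ← mul_pow]; norm_num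
      nlinarith) hj1 le_rfl (by rw [htau, hzeta]; linarith) (by rw [htau]; linarith)).2
      (by rw [htau, hzeta]; linarith)
  rw [← hs, ← hf0] at hMM
  have hMM' : 2 * m1 * e1 ≤ MM (pr N e1 zeta) (tt N) (fun p => 1 / (p : ℝ)) (2 ^ j) false tau zeta := by
    refine le_trans (le_of_eq ?_) hMM
    rw [hm1]
    field_simp
    ring
  -- second term
  have hsum : ∑ p ∈ pr N e1 zeta, 1 / (p : ℝ) ≤ Real.log (zeta / e1) + 1 := by
    have h2 := hmer N hN1' e1 zeta le_rfl hj1 (by linarith)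
    have h3 := (abs_le.1 h2).2
    have h4 := min_le_right eta 1
    linarith
  have hexp : Real.exp (∑ p ∈ pr N e1 zeta, 1 / (p : ℝ)) ≤ 3 * (zeta / e1) := by
    calc Real.exp (∑ p ∈ pr N e1 zeta, 1 / (p : ℝ)) ≤ Real.exp (Real.log (zeta / e1) + 1) := Real.exp_le_exp.2 hsum
      _ = zeta / e1 * Real.exp 1 := by rw [Real.exp_add, Real.exp_log (by positivity)]
      _ ≤ zeta / e1 * 3 := by
        apply mul_le_mul_of_nonneg_left _ (by positivity)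
        have := Real.exp_one_lt_d9; linarith
      _ = _ := by ring
  have hbe : (1 / 2 : ℝ) ^ b = e1 ^ 4 := by
    rw [hb, he1, ← pow_mul, mul_comm]
  set X : ℝ := N * V (Ps N C0 e1) with hX
  have hVpos : 0 < V (Ps N C0 e1) := V_pos fun p hp => (mem_Ps.1 hp).2.1
  have hX0 : 0 < X := by positivity
  have hsecond : (1 / 2 : ℝ) ^ b * X * Real.exp (∑ p ∈ pr N e1 zeta, 1 / (p : ℝ)) ≤ m1 * e1 / 2 * X := by
    rw [hbe]
    calc e1 ^ 4 * X * Real.exp (∑ p ∈ pr N e1 zeta, 1 / (p : ℝ)) ≤ e1 ^ 4 * X * (3 * (zeta / e1)) :=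
          mul_le_mul_of_nonneg_left hexp (by positivity)
      _ = (6 * zeta * e1 ^ 2) * (e1 / 2 * X) := by field_simp; ring
      _ ≤ m1 * (e1 / 2 * X) := mul_le_mul_of_nonneg_right hj4 (by positivity)
      _ = _ := by ring
  -- third term
  have hV1 : (N : ℝ) ^ (-e1) ≤ V (Ps N C0 e1) := by
    have h2 := V_ge (P := Ps N C0 e1) (fun p hp => (mem_Ps.1 hp).2.1) (y := ⌊(N : ℝ) ^ e1⌋₊)
      (Nat.le_floor (by push_cast; linarith)) (by
        intro p hp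
        have h3 := (tt_lt hN2' (mem_Ps.1 hp).2.1.pos e1).1 (mem_Ps.1 hp).2.2.2
        exact Nat.le_floor h3.le)
    refine le_trans ?_ h2
    rw [Real.rpow_neg hN0.le, ← one_div]
    apply one_div_le_one_div_of_le
    · have : (0 : ℕ) < ⌊(N : ℝ) ^ e1⌋₊ := Nat.floor_pos.2 (by linarith)
      exact_mod_cast this
    · exact Nat.floor_le (by positivity)
  have hXlow : (N : ℝ) ^ (1 - delta / 8) ≤ X := by
    calc (N : ℝ) ^ (1 - delta / 8) ≤ (N : ℝ) ^ (1 + -e1) :=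
          Real.rpow_le_rpow_of_exponent_le hNr.le (by linarith)
      _ = N * (N : ℝ) ^ (-e1) := by rw [Real.rpow_add hN0, Real.rpow_one]
      _ ≤ X := mul_le_mul_of_nonneg_left hV1 hN0.le
  have hthird : (N : ℝ) ^ tau * (((J : ℝ) + 2) * (((2 ^ 2 ^ J : ℕ) : ℝ) ^ (C0 * b)) ^ 2) ≤ m1 * e1 / 2 * X := by
    have h2 : (((2 ^ 2 ^ J : ℕ) : ℝ) ^ (C0 * b)) ^ 2 ≤ (N : ℝ) ^ (delta / 4) := by
      calc (((2 ^ 2 ^ J : ℕ) : ℝ) ^ (C0 * b)) ^ 2 = ((2 ^ 2 ^ J : ℕ) : ℝ) ^ (C0 * b * 2) := by rw [← pow_mul]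
        _ ≤ ((N : ℝ) ^ (2 * e1)) ^ (C0 * b * 2) := pow_le_pow_left₀ (by positivity) hJ2 _
        _ = (N : ℝ) ^ (2 * e1 * ((C0 * b * 2 : ℕ) : ℝ)) := by
          rw [← Real.rpow_natCast, ← Real.rpow_mul hN0.le]
        _ ≤ (N : ℝ) ^ (delta / 4) := by
          apply Real.rpow_le_rpow_of_exponent_le hNr.le
          rw [hb]
          push_cast
          refine le_trans (le_of_eq ?_) hj3
          ring
    calc (N : ℝ) ^ tau * (((J : ℝ) + 2) * (((2 ^ 2 ^ J : ℕ) : ℝ) ^ (C0 * b)) ^ 2) ≤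
        (N : ℝ) ^ tau * ((4 * Real.log N) * (N : ℝ) ^ (delta / 4)) := by
          apply mul_le_mul_of_nonneg_left _ (by positivity)
          exact mul_le_mul hJ3 h2 (by positivity) (by have := Real.log_nonneg hNr.le; positivity)
      _ ≤ (N : ℝ) ^ tau * ((m1 * e1 / 2 * (N : ℝ) ^ (5 * delta / 8)) * (N : ℝ) ^ (delta / 4)) := by
          apply mul_le_mul_of_nonneg_left _ (by positivity)
          exact mul_le_mul_of_nonneg_right hg3 (by positivity)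
      _ = m1 * e1 / 2 * (N : ℝ) ^ (1 - delta / 8) := by
          have h3 : (N : ℝ) ^ (1 - delta / 8) = (N : ℝ) ^ tau * (N : ℝ) ^ (5 * delta / 8) * (N : ℝ) ^ (delta / 4) := by
            rw [← Real.rpow_add hN0, ← Real.rpow_add hN0]
            congr 1
            rw [htau]; ring
          rw [h3]; ring
      _ ≤ _ := mul_le_mul_of_nonneg_left hXlow (by positivity)
  -- the set
  have hsets : ∀ n, n ∈ (AA N C0 n0 e1).filter (fun n => ∀ p ∈ pr N e1 zeta, ¬ p ∣ n) →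
      n ∈ Ioc n0 (n0 + N) ∧ ∀ p ∈ Ps N C0 zeta, ¬ p ∣ n := by
    intro n hn
    rw [mem_filter] at hn
    unfold AA at hn
    rw [mem_filter] at hn
    refine ⟨hn.1.1, fun p hp => ?_⟩
    have h2 := mem_Ps.1 hp
    by_cases h3 : tt N p < e1
    · exact hn.1.2 p (mem_Ps.2 ⟨h2.1, h2.2.1, h2.2.2.1, h3⟩)
    · exact hn.2 p (mem_pr.2 ⟨h2.1, h2.2.1, not_lt.1 h3, h2.2.2.2⟩)
  have hVmono : V (Ps N C0 zeta) ≤ V (Ps N C0 e1) := by
    apply V_mono _ (fun p hp => (mem_Ps.1 hp).2.1)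
    intro p hp
    have h2 := mem_Ps.1 hp
    exact mem_Ps.2 ⟨h2.1, h2.2.1, h2.2.2.1, h2.2.2.2.trans_le hj1⟩
  have hfin : m1 * e1 * (N * V (Ps N C0 zeta)) ≤ m1 * e1 * X := by
    apply mul_le_mul_of_nonneg_left _ (by positivity)
    exact mul_le_mul_of_nonneg_left hVmono hN0.le
  have hmainterm : X * (2 * m1 * e1) ≤ X * MM (pr N e1 zeta) (tt N) (fun p => 1 / (p : ℝ)) (2 ^ j) false tau zeta :=
    mul_le_mul_of_nonneg_left hMM' hX0.le
  refine hfin.trans (le_trans (b := (((AA N C0 n0 e1).filter (fun n => ∀ p ∈ pr N e1 zeta, ¬ p ∣ n)).card : ℝ)) ?_ ?_)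
  · nlinarith [key, hmainterm, hsecond, hthird]
  · apply Nat.cast_le.2
    apply card_le_card
    intro n hn
    exact Finset.mem_filter.2 (hsets n hn)

end Pool.Agent.Y829
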